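import Pool.Agent.R419.CF.Defs
import Pool.Agent.Y710.CX.NS

/-! # Project CF: translation between the cube-free numbers `D` and the pairs of sets of primes

Adapted from the file `Y710/CX/NS.lean`. -/

set_option autoImplicit false

open scoped Classical

namespace Pool.Agent.R419.CF.NS

open Finset Pool.Agent.Y703.CX Pool.Agent.R419.CF
open Pool.Agent.Y703.CT (Cls NoSplit Base)
open Pool.Agent.Y710.CX (part dd part_prime not_dvd_dd lam_dd cube_two prod_dd)

theorem fac_prod {S : Finset ℕ} (hS : ∀ q ∈ S, q.Prime) (p : ℕ) :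
    (∏ q ∈ S, q).factorization p = if p ∈ S then 1 else 0 := by
  rw [Nat.factorization_prod (fun q hq => (hS q hq).ne_zero), Finsupp.finsetSum_apply]
  rw [Finset.sum_congr rfl fun q hq => by rw [(hS q hq).factorization, Finsupp.single_apply]]
  simp

theorem fac_two {S M : Finset ℕ} (hS : ∀ q ∈ S, q.Prime) (hM : ∀ q ∈ M, q.Prime) (p : ℕ) :
    ((∏ q ∈ S, q) * ∏ q ∈ M, q).factorization p =
      (if p ∈ S then 1 else 0) + (if p ∈ M then 1 else 0) := by
  rw [Nat.factorization_mul (prod_primes_pos hS).ne' (prod_primes_pos hM).ne', Finsupp.add_apply,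
    fac_prod hS, fac_prod hM]

/-- the primes whose square divides `D` -/
noncomputable def MD (D : ℕ) : Finset ℕ := D.primeFactors.filter fun p => p ^ 2 ∣ D

theorem MD_prime {D : ℕ} : ∀ q ∈ MD D, q.Prime := fun _ hq =>
  Nat.prime_of_mem_primeFactors (Finset.mem_filter.1 hq).1

theorem MD_sub (D : ℕ) : MD D ⊆ D.primeFactors := Finset.filter_subset _ _

theorem dec {D : ℕ} (h0 : D ≠ 0) (hc : ∀ p : ℕ, p.Prime → ¬ p ^ 3 ∣ D) :
    (∏ p ∈ D.primeFactors, p) * ∏ p ∈ MD D, p = D := by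
  have hS : ∀ q ∈ D.primeFactors, q.Prime := fun q hq => Nat.prime_of_mem_primeFactors hq
  refine Nat.eq_of_factorization_eq
    (mul_ne_zero (prod_primes_pos hS).ne' (prod_primes_pos MD_prime).ne') h0 fun p => ?_
  rw [fac_two hS MD_prime]
  by_cases hp : p.Prime
  · have h1 := hc p hp
    rw [hp.pow_dvd_iff_le_factorization h0] at h1
    have h2 : p ∈ D.primeFactors ↔ 1 ≤ D.factorization p := by
      rw [Nat.mem_primeFactors, ← hp.pow_dvd_iff_le_factorization h0, pow_one]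
      exact ⟨fun h => h.2.1, fun h => ⟨hp, h, h0⟩⟩
    have h3 : p ∈ MD D ↔ 2 ≤ D.factorization p := by
      unfold MD
      rw [Finset.mem_filter, hp.pow_dvd_iff_le_factorization h0, h2]
      omega
    split_ifs with a b b
    · rw [h3] at b; omega
    · rw [h2] at a; rw [h3] at b; omega
    · rw [h2] at a; rw [h3] at b; omega
    · rw [h2] at a; omega
  · have h1 : p ∉ D.primeFactors := fun h => hp (Nat.prime_of_mem_primeFactors h)
    have h2 : p ∉ MD D := fun h => h1 (MD_sub D h)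
    rw [if_neg h1, if_neg h2, Nat.factorization_eq_zero_of_not_prime _ hp]

theorem cls_iff {D : ℕ} : Cls D ↔ Base D ∧ ClW (MD D) D.primeFactors := by
  unfold Cls ClW ClG
  constructor
  · rintro ⟨hB, h1, h8, q, hq, hq2, hqD, hall⟩
    obtain ⟨h0, h3, hc⟩ := hB
    refine ⟨⟨h0, h3, hc⟩, ⟨fun p hp => ⟨Nat.prime_of_mem_primeFactors hp, fun h => h3 ?_⟩, ?_⟩,
      MD_sub D, ?_⟩
    · rw [← h]
      exact Nat.dvd_of_mem_primeFactors hp
    · rw [Finset.card_eq_one]
      refine ⟨q, ?_⟩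
      ext p
      rw [Finset.mem_filter, Finset.mem_singleton, Nat.mem_primeFactors]
      constructor
      · rintro ⟨⟨hp, hpD, -⟩, hp2⟩
        by_contra hne
        have := hall p hp hpD hne
        omega
      · rintro rfl
        exact ⟨⟨hq, hqD, h0⟩, hq2⟩
    · rw [dec h0 hc]
      exact ⟨h1, h8⟩
  · rintro ⟨⟨h0, h3, hc⟩, ⟨hpr, hcard⟩, -, h18⟩
    rw [dec h0 hc] at h18
    refine ⟨⟨h0, h3, hc⟩, h18.1, h18.2, ?_⟩
    obtain ⟨q, hq⟩ := Finset.card_eq_one.1 hcard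
    have hqm : q ∈ D.primeFactors.filter fun p => p % 3 = 2 := by
      rw [hq]
      exact Finset.mem_singleton_self q
    rw [Finset.mem_filter, Nat.mem_primeFactors] at hqm
    refine ⟨q, hqm.1.1, hqm.2, hqm.1.2.1, fun p hp hpD hne => ?_⟩
    have hm : p ∈ D.primeFactors := Nat.mem_primeFactors.2 ⟨hp, hpD, h0⟩
    have hp3 := (hpr p hm).2
    have h2 : p % 3 ≠ 2 := by
      intro h2
      have : p ∈ D.primeFactors.filter fun p => p % 3 = 2 := Finset.mem_filter.2 ⟨hm, h2⟩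
      rw [hq, Finset.mem_singleton] at this
      exact hne this
    have h4 : p % 3 ≠ 0 := by
      intro h3
      have : 3 ∣ p := Nat.dvd_of_mod_eq_zero h3
      exact hp3 ((Nat.prime_dvd_prime_iff_eq Nat.prime_three hp).1 this).symm
    omega

/-- the product of the part with label `i`, with multiplicities -/
noncomputable def dW (M S : Finset ℕ) (c : ℕ → ZMod 3) (i : ZMod 3) : ℕ := dd S c i * dd M c i

theorem prod_dW (M S : Finset ℕ) (c : ℕ → ZMod 3) :
    ∏ i, dW M S c i = (∏ q ∈ S, q) * ∏ q ∈ M, q := by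
  unfold dW
  rw [Finset.prod_mul_distrib, prod_dd, prod_dd]

theorem sum_wt {M S : Finset ℕ} (hMS : M ⊆ S) (f : ℕ → ZMod 3) (g : ℕ → ZMod 3) :
    ∑ q ∈ S, f q * (wt M q * g q) = ∑ q ∈ S, f q * g q + ∑ q ∈ M, f q * g q := by
  have h1 : ∑ q ∈ M, f q * g q = ∑ q ∈ S, if q ∈ M then f q * g q else 0 := by
    rw [← Finset.sum_filter]
    refine Finset.sum_congr ?_ fun _ _ => rfl
    ext q
    rw [Finset.mem_filter]
    exact ⟨fun h => ⟨hMS h, h⟩, fun h => h.2⟩
  rw [h1, ← Finset.sum_add_distrib]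
  refine Finset.sum_congr rfl fun q _ => ?_
  unfold wt
  split_ifs
  · have : ∀ a b : ZMod 3, a * (2 * b) = a * b + a * b := by decide
    exact this _ _
  · rw [one_mul, add_zero]

theorem lam_dW (h : LamP) {M S : Finset ℕ} (hS : ∀ q ∈ S, q.Prime) (hMS : M ⊆ S) (c : ℕ → ZMod 3)
    {p : ℕ} (hp : p.Prime) (hp1 : p % 3 = 1) :
    ¬ p ∣ dW M S c (c p + 1) * dW M S c (c p + 2) ^ 2 ∧
    lam p (dW M S c (c p + 1) * dW M S c (c p + 2) ^ 2) =
      ∑ q ∈ S, (c q - c p) * (wt M q * lam p q) := by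
  have hM : ∀ q ∈ M, q.Prime := fun q hq => hS q (hMS hq)
  obtain ⟨a1, a2⟩ := lam_dd h hS c hp hp1
  obtain ⟨b1, b2⟩ := lam_dd h hM c hp hp1
  have e : dW M S c (c p + 1) * dW M S c (c p + 2) ^ 2 =
      (dd S c (c p + 1) * dd S c (c p + 2) ^ 2) * (dd M c (c p + 1) * dd M c (c p + 2) ^ 2) := by
    unfold dW
    ring
  rw [e]
  refine ⟨fun h => (hp.dvd_mul.1 h).elim a1 b1, ?_⟩
  rw [h.mul p _ _ hp hp1 a1 b1, a2, b2, sum_wt hMS (fun q => c q - c p) (fun q => lam p q)]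

theorem mem_dd {S : Finset ℕ} (hS : ∀ q ∈ S, q.Prime) (c : ℕ → ZMod 3) (i : ZMod 3) {p : ℕ}
    (hp : p.Prime) (hd : p ∣ dd S c i) : p ∈ S ∧ c p = i := by
  unfold dd at hd
  obtain ⟨q, hq, hpq⟩ := (hp.prime.dvd_finsetProd_iff _).1 hd
  rw [(Nat.prime_dvd_prime_iff_eq hp (part_prime hS c i q hq)).1 hpq]
  exact Finset.mem_filter.1 hq

theorem mem_dW {M S : Finset ℕ} (hS : ∀ q ∈ S, q.Prime) (hMS : M ⊆ S) (c : ℕ → ZMod 3) (i : ZMod 3)
    {p : ℕ} (hp : p.Prime) (hd : p ∣ dW M S c i) : p ∈ S ∧ c p = i := by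
  unfold dW at hd
  rcases hp.dvd_mul.1 hd with h | h
  · exact mem_dd hS c i hp h
  · have := mem_dd (fun q hq => hS q (hMS hq)) c i hp h
    exact ⟨hMS this.1, this.2⟩

theorem gdw_of_nosplit (h : LamP) {D : ℕ} (hcl : Cls D) (hn : NoSplit D) :
    GdW (MD D) D.primeFactors := by
  intro c hc
  obtain ⟨⟨h0, -, hcf⟩, ⟨hpr, -⟩, -, -⟩ := cls_iff.1 hcl
  have hS : ∀ q ∈ D.primeFactors, q.Prime := fun q hq => (hpr q hq).1
  have hMS := MD_sub D
  have hprod := dec h0 hcf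
  obtain ⟨S, hSd⟩ : ∃ S, S = D.primeFactors := ⟨_, rfl⟩
  obtain ⟨M, hMd⟩ : ∃ M, M = MD D := ⟨_, rfl⟩
  rw [← hSd] at hS hc hpr hMS hprod ⊢
  rw [← hMd] at hc hMS hprod
  have hcase : ∀ p ∈ S, p % 3 = 1 ∨ p % 3 = 2 := by
    intro p hp
    have h3 : p % 3 ≠ 0 := by
      intro h3
      have : 3 ∣ p := Nat.dvd_of_mod_eq_zero h3
      exact (hpr p hp).2 ((Nat.prime_dvd_prime_iff_eq Nat.prime_three (hS p hp)).1 this).symm
    omega
  have hA : ∀ i j : ZMod 3, i ≠ j → Nat.Coprime (dW M S c i) (dW M S c j) := by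
    intro i j hij
    refine Nat.coprime_of_dvd fun p hp h1 h2 => ?_
    have e1 := (mem_dW hS hMS c _ hp h1).2
    have e2 := (mem_dW hS hMS c _ hp h2).2
    exact hij (e1.symm.trans e2)
  have hB : ∀ (i : ZMod 3) (p : ℕ), p.Prime → p ∣ dW M S c i →
      ∃ x : ℤ, (p : ℤ) ∣ (dW M S c (i + 1) : ℤ) * (dW M S c (i + 2) : ℤ) ^ 2 - x ^ 3 := by
    intro i p hp hd
    obtain ⟨hpS, hcp⟩ := mem_dW hS hMS c i hp hd
    rcases hcase p hpS with h1 | h2
    · obtain ⟨k1, k2⟩ := lam_dW h hS hMS c hp h1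
      rw [hcp] at k1 k2
      have k3 := hc p hpS h1
      rw [hcp] at k3
      rw [k3] at k2
      have := (h.cube p _ hp h1 k1).1 k2
      push_cast at this
      exact this
    · exact cube_two hp h2 _
  have hC := hn (dW M S c) ((prod_dW M S c).trans hprod) hA hB
  obtain ⟨i, hi⟩ := hC
  have hall : ∀ p ∈ S, c p = i := by
    intro p hp
    by_contra hne
    have h1 := hi (c p) hne
    have h3 : p ∣ dd S c (c p) := by
      unfold dd
      exact Finset.dvd_prod_of_mem _ (Finset.mem_filter.2 ⟨hp, rfl⟩)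
    have h2 : p ∣ dW M S c (c p) := h3.mul_right _
    rw [h1] at h2
    exact (hS p hp).one_lt.ne' (Nat.dvd_one.1 h2)
  intro p hp q hq
  rw [hall p hp, hall q hq]

theorem nosplit_of_gdw (h : LamP) {D : ℕ} (hcl : Cls D) (hg : GdW (MD D) D.primeFactors) :
    NoSplit D := by
  intro d hd hcop hcube
  obtain ⟨⟨h0, -, hcf⟩, ⟨hpr, hcard⟩, -, -⟩ := cls_iff.1 hcl
  have hS : ∀ q ∈ D.primeFactors, q.Prime := fun q hq => (hpr q hq).1
  -- the labels
  have hex : ∀ p ∈ D.primeFactors, ∃ i : ZMod 3, p ∣ d i := by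
    intro p hp
    have h1 : p ∣ ∏ i, d i := by
      rw [hd]
      exact Nat.dvd_of_mem_primeFactors hp
    obtain ⟨i, -, hi⟩ := ((hS p hp).prime.dvd_finsetProd_iff _).1 h1
    exact ⟨i, hi⟩
  have huniq : ∀ p : ℕ, p.Prime → ∀ i j : ZMod 3, p ∣ d i → p ∣ d j → i = j := by
    intro p hp i j h1 h2
    by_contra hne
    have h3 : p ∣ Nat.gcd (d i) (d j) := Nat.dvd_gcd h1 h2
    rw [Nat.Coprime.gcd_eq_one (hcop i j hne)] at h3
    exact hp.one_lt.ne' (Nat.dvd_one.1 h3)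
  obtain ⟨c, hc⟩ : ∃ c : ℕ → ZMod 3, ∀ p ∈ D.primeFactors, p ∣ d (c p) := by
    refine ⟨fun p => if hp : ∃ i : ZMod 3, p ∣ d i then hp.choose else 0, fun p hp => ?_⟩
    have := hex p hp
    simp only [this, dif_pos]
    exact this.choose_spec
  have hdD : ∀ i, d i ∣ D := fun i => by
    rw [← hd]
    exact Finset.dvd_prod_of_mem _ (Finset.mem_univ i)
  have hd0 : ∀ i, d i ≠ 0 := fun i h => h0 (Nat.eq_zero_of_zero_dvd (h ▸ hdD i))
  have hfac : ∀ p : ℕ, p.Prime → ∀ i, p ∣ d i → D.factorization p = (d i).factorization p := by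
    intro p hp i hpi
    rw [← hd, Nat.factorization_prod (fun j _ => hd0 j), Finsupp.finsetSum_apply]
    refine Finset.sum_eq_single i (fun j _ hj => ?_) fun h => absurd (Finset.mem_univ i) h
    exact Nat.factorization_eq_zero_of_not_dvd fun h => hj (huniq p hp _ _ h hpi)
  have hdd : ∀ i, dW (MD D) D.primeFactors c i = d i := by
    intro i
    have hcfi : ∀ p : ℕ, p.Prime → ¬ p ^ 3 ∣ d i := fun p hp h => hcf p hp (h.trans (hdD i))
    rw [← dec (hd0 i) hcfi]
    unfold dW dd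
    have e1 : part D.primeFactors c i = (d i).primeFactors := by
      ext p
      unfold part
      rw [Finset.mem_filter, Nat.mem_primeFactors, Nat.mem_primeFactors]
      constructor
      · rintro ⟨⟨hp, hpD, -⟩, rfl⟩
        exact ⟨hp, hc p (Nat.mem_primeFactors.2 ⟨hp, hpD, h0⟩), hd0 _⟩
      · rintro ⟨hp, hpd, -⟩
        have hpm : p ∈ D.primeFactors := Nat.mem_primeFactors.2 ⟨hp, hpd.trans (hdD i), h0⟩
        exact ⟨⟨hp, hpd.trans (hdD i), h0⟩, huniq p hp _ _ (hc p hpm) hpd⟩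
    have e2 : part (MD D) c i = MD (d i) := by
      ext p
      unfold part
      rw [Finset.mem_filter]
      constructor
      · rintro ⟨hpM, hci⟩
        have hpS := MD_sub D hpM
        have hp := hS p hpS
        have hpd : p ∣ d i := hci ▸ hc p hpS
        have h2 : p ^ 2 ∣ D := (Finset.mem_filter.1 hpM).2
        unfold MD
        rw [Finset.mem_filter]
        refine ⟨Nat.mem_primeFactors.2 ⟨hp, hpd, hd0 i⟩, ?_⟩
        rw [hp.pow_dvd_iff_le_factorization (hd0 i), ← hfac p hp i hpd,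
          ← hp.pow_dvd_iff_le_factorization h0]
        exact h2
      · intro hpM
        unfold MD at hpM
        rw [Finset.mem_filter, Nat.mem_primeFactors] at hpM
        obtain ⟨⟨hp, hpd, -⟩, h2⟩ := hpM
        have hpm : p ∈ D.primeFactors := Nat.mem_primeFactors.2 ⟨hp, hpd.trans (hdD i), h0⟩
        refine ⟨?_, huniq p hp _ _ (hc p hpm) hpd⟩
        unfold MD
        rw [Finset.mem_filter]
        exact ⟨hpm, h2.trans (hdD i)⟩
    rw [e1, e2]
  have hsol : SolW (MD D) D.primeFactors c := by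
    intro p hp hp1
    obtain ⟨k1, k2⟩ := lam_dW h hS (MD_sub D) c (hS p hp) hp1
    rw [← k2]
    rw [h.cube p _ (hS p hp) hp1 k1, hdd, hdd]
    have := hcube (c p) p (hS p hp) (hc p hp)
    push_cast
    exact this
  have hconst := hg c hsol
  -- a prime of the set
  obtain ⟨q, hq⟩ := Finset.card_eq_one.1 hcard
  have hqm : q ∈ D.primeFactors := by
    have : q ∈ D.primeFactors.filter fun p => p % 3 = 2 := by
      rw [hq]
      exact Finset.mem_singleton_self q
    exact (Finset.mem_filter.1 this).1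
  refine ⟨c q, fun j hj => ?_⟩
  by_contra hne
  obtain ⟨p, hp, hpd⟩ := Nat.exists_prime_and_dvd hne
  have hpm : p ∈ D.primeFactors := Nat.mem_primeFactors.2 ⟨hp, hpd.trans (hdD j), h0⟩
  have h1 := huniq p hp _ _ (hc p hpm) hpd
  rw [hconst p hpm q hqm] at h1
  exact hj h1.symm

/-! ## the bijection -/

/-- the sets `M` -/
noncomputable def MM (X : ℕ) : Finset (Finset ℕ) :=
  (range (X + 1)).powerset.filter fun M => (∀ p ∈ M, p.Prime) ∧ ∏ p ∈ M, p ≤ X

theorem mem_MM {X : ℕ} {M : Finset ℕ} : M ∈ MM X ↔ (∀ p ∈ M, p.Prime) ∧ ∏ p ∈ M, p ≤ X := by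
  unfold MM
  rw [mem_filter, mem_powerset]
  constructor
  · exact fun h => h.2
  · intro h
    refine ⟨fun q hq => ?_, h⟩
    rw [mem_range]
    have h1 : q ∣ ∏ p ∈ M, p := Finset.dvd_prod_of_mem _ hq
    have h2 := Nat.le_of_dvd (prod_primes_pos h.1) h1
    have := h.2
    omega

theorem card_eq {M : Finset ℕ} (hM : ∀ p ∈ M, p.Prime) (X : ℕ) (P : ℕ → Prop)
    (Q : Finset ℕ → Prop) (hPQ : ∀ D, Cls D → MD D = M → (P D ↔ Q D.primeFactors)) :
    (((Icc 1 X).filter fun D => Cls D ∧ P D).filter fun D => MD D = M).card =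
      ((SW M (X / ∏ p ∈ M, p)).filter Q).card := by
  have hpos := prod_primes_pos hM
  refine Finset.card_bij (fun D _ => D.primeFactors) ?_ ?_ ?_
  · intro D hD
    rw [Finset.mem_filter, Finset.mem_filter, Finset.mem_Icc] at hD
    obtain ⟨⟨⟨h1, h2⟩, h3, h4⟩, h5⟩ := hD
    obtain ⟨⟨h0, -, hcf⟩, hcl⟩ := cls_iff.1 h3
    rw [h5] at hcl
    have hd := dec h0 hcf
    rw [h5] at hd
    rw [Finset.mem_filter, mem_SW, Nat.le_div_iff_mul_le hpos, hd]
    exact ⟨⟨hcl, h2⟩, (hPQ D h3 h5).1 h4⟩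
  · intro D hD E hE h
    rw [Finset.mem_filter, Finset.mem_filter, Finset.mem_Icc] at hD hE
    obtain ⟨⟨-, h3, -⟩, h5⟩ := hD
    obtain ⟨⟨-, k3, -⟩, k5⟩ := hE
    obtain ⟨⟨h0, -, hcf⟩, -⟩ := cls_iff.1 h3
    obtain ⟨⟨k0, -, kcf⟩, -⟩ := cls_iff.1 k3
    have h' : D.primeFactors = E.primeFactors := h
    rw [← dec h0 hcf, ← dec k0 kcf, h5, k5, h']
  · intro S hS
    rw [Finset.mem_filter, mem_SW, Nat.le_div_iff_mul_le hpos] at hS
    obtain ⟨⟨hcl, hle⟩, hQ⟩ := hS
    obtain ⟨hG, hMS, h18⟩ := hcl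
    have hpr : ∀ p ∈ S, p.Prime := fun p hp => (hG.1 p hp).1
    set D := (∏ p ∈ S, p) * ∏ p ∈ M, p with hD
    have h0 : D ≠ 0 := (Nat.mul_pos (prod_primes_pos hpr) hpos).ne'
    have hf := fac_two hpr hM
    rw [← hD] at hf
    have hcf : ∀ p : ℕ, p.Prime → ¬ p ^ 3 ∣ D := by
      intro p hp h
      rw [hp.pow_dvd_iff_le_factorization h0, hf] at h
      split_ifs at h <;> omega
    have hpf : D.primeFactors = S := by
      ext p
      rw [Nat.mem_primeFactors]
      constructor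
      · rintro ⟨hp, hpD, -⟩
        by_contra hpS
        have hpM : p ∉ M := fun h => hpS (hMS h)
        have := (hp.dvd_iff_one_le_factorization h0).1 hpD
        rw [hf, if_neg hpS, if_neg hpM] at this
        omega
      · intro hp
        exact ⟨hpr p hp, (Finset.dvd_prod_of_mem _ hp).mul_right _, h0⟩
    have hMD : MD D = M := by
      ext p
      unfold MD
      rw [Finset.mem_filter, hpf]
      constructor
      · rintro ⟨hp, hp2⟩
        rw [(hpr p hp).pow_dvd_iff_le_factorization h0, hf] at hp2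
        by_contra hpM
        rw [if_neg hpM] at hp2
        split_ifs at hp2; all_goals omega
      · intro hp
        refine ⟨hMS hp, ?_⟩
        rw [(hM p hp).pow_dvd_iff_le_factorization h0, hf, if_pos (hMS hp), if_pos hp]
    have h3 : ¬ 3 ∣ D := by
      intro h
      have : 3 ∈ D.primeFactors := Nat.mem_primeFactors.2 ⟨Nat.prime_three, h, h0⟩
      rw [hpf] at this
      exact (hG.1 3 this).2 rfl
    have hC : Cls D := by
      rw [cls_iff, hMD, hpf]
      exact ⟨⟨h0, h3, hcf⟩, hG, hMS, h18⟩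
    refine ⟨D, ?_, hpf⟩
    rw [Finset.mem_filter, Finset.mem_filter, Finset.mem_Icc]
    refine ⟨⟨⟨Nat.one_le_iff_ne_zero.2 h0, hle⟩, hC, ?_⟩, hMD⟩
    rw [hPQ D hC hMD, hpf]
    exact hQ

theorem MD_mem {X D : ℕ} (hD : D ∈ Icc 1 X) (hC : Cls D) : MD D ∈ MM X := by
  obtain ⟨⟨h0, -, hcf⟩, -⟩ := cls_iff.1 hC
  rw [mem_MM]
  refine ⟨MD_prime, ?_⟩
  have h1 := dec h0 hcf
  have h2 : 1 ≤ ∏ p ∈ D.primeFactors, p :=
    prod_primes_pos fun q hq => Nat.prime_of_mem_primeFactors hq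
  rw [Finset.mem_Icc] at hD
  calc ∏ p ∈ MD D, p = 1 * ∏ p ∈ MD D, p := (one_mul _).symm
    _ ≤ (∏ p ∈ D.primeFactors, p) * ∏ p ∈ MD D, p := Nat.mul_le_mul_right _ h2
    _ = D := h1
    _ ≤ X := hD.2

theorem cnt (h : LamP) (X : ℕ) : ((Icc 1 X).filter fun D => Cls D ∧ NoSplit D).card =
    ∑ M ∈ MM X, ((SW M (X / ∏ p ∈ M, p)).filter (GdW M)).card := by
  rw [card_eq_sum_card_fiberwise (f := MD) (t := MM X)]
  · refine sum_congr rfl fun M hM => ?_
    refine card_eq (mem_MM.1 hM).1 X NoSplit (GdW M) fun D hD hDM => ?_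
    rw [← hDM]
    exact ⟨gdw_of_nosplit h hD, nosplit_of_gdw h hD⟩
  · intro D hD
    rw [mem_coe, mem_filter] at hD
    exact MD_mem hD.1 hD.2.1

theorem cnt1 (X : ℕ) : ((Icc 1 X).filter Cls).card =
    ∑ M ∈ MM X, (SW M (X / ∏ p ∈ M, p)).card := by
  rw [card_eq_sum_card_fiberwise (f := MD) (t := MM X)]
  · refine sum_congr rfl fun M hM => ?_
    have := card_eq (mem_MM.1 hM).1 X (fun _ => True) (fun _ => True) fun D _ _ => Iff.rfl
    rw [Finset.filter_true] at this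
    simp only [and_true] at this
    exact this
  · intro D hD
    rw [mem_coe, mem_filter] at hD
    exact MD_mem hD.1 hD.2

end Pool.Agent.R419.CF.NS
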