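import Pool.Agent.R419.CF.Asy
import Pool.Agent.Y703.CX.Fin

/-!
# Project CF: the exact proportion of the good cube-free `D`

Extension of project CX (see `Y703/CX/Fin.lean` for the authors of its parts) from the squarefree to all
cube-free numbers of the class (helper419).
-/

set_option autoImplicit false

open scoped Classical

namespace Pool.Agent.R419.CF

open Finset Filter
open Pool.Agent.Y703.CT (Cls NoSplit)

theorem t_FIN : Tendsto
  (fun X : ℕ => (((Icc 1 X).filter fun D => Cls D ∧ NoSplit D).card : ℝ) /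
    (((Icc 1 X).filter fun D => Cls D).card : ℝ)) atTop (nhds Pool.Agent.Y703.CX.c3) :=
  Asy.t_CF Pool.Agent.Y333.CX.t_LAM Pool.Agent.Y261.CX.t_BIL1 Pool.Agent.Y779.CX.t_BIL2
    Pool.Agent.Y419.CX.t_EQ (Pool.Agent.Y759.CX.t_LA Pool.Agent.Y461.CX.t_C3)
    Pool.Agent.Y488.CX.t_SIE Pool.Agent.Y495.CX.t_HAL Pool.Agent.Y87.CX.t_MER
    Pool.Agent.Y461.CX.t_CHE Pool.Agent.Y461.CX.t_LOW Pool.Agent.Y461.CX.t_C3

end Pool.Agent.R419.CF
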