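import Pool.Agent.R419.CF.Fin

/-!
# Project CF: the size of the class
-/

set_option autoImplicit false

open scoped Classical

namespace Pool.Agent.R419.CF

open Finset Filter
open Pool.Agent.Y703.CT (Cls NoSplit)

/-- the lower bound for the number of the `D` of the class -/
theorem low : ∃ c : ℝ, 0 < c ∧ ∃ X₀ : ℕ, ∀ X : ℕ, X₀ ≤ X →
    c * X / Real.sqrt (Real.log X) ≤ (((Icc 1 X).filter fun D => Cls D).card : ℝ) := by
  obtain ⟨c, X₀, hc, h⟩ := Pool.Agent.Y461.CX.t_LOW Pool.Agent.Y87.CX.t_MER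
    Pool.Agent.Y461.CX.t_CHE
  refine ⟨c, hc, max X₀ 1, fun X hX => ?_⟩
  have h1 := h X ((le_max_left _ _).trans hX)
  have h2 : ((Pool.Agent.Y703.CX.SS X).card : ℝ) ≤ (((Icc 1 X).filter fun D => Cls D).card : ℝ) := by
    rw [NS.cnt1 X]
    exact_mod_cast Asy.ss_le ((le_max_right _ _).trans hX)
  refine le_trans (le_of_eq ?_) (h1.trans h2)
  rw [div_eq_mul_inv, Real.sqrt_eq_rpow, ← Real.rpow_neg (Real.log_natCast_nonneg X)]

end Pool.Agent.R419.CF
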