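import Pool.Agent.Y87.CX.Mer0

/-!
# Project CF: the sum of the reciprocals of the primes congruent to 1 modulo 3

Adapted from the file `Y87/CX/Mer0.lean` (primes congruent to 2 modulo 3).
-/

set_option autoImplicit false

namespace Pool.Agent.R419.CF.Mer

open Finset
open Pool.Agent.Y87.CX (ch ch_one ch_two ch_zero abs_ch fA fA_apply UU_le mert)
open scoped ArithmeticFunction.vonMangoldt ArithmeticFunction.zeta

/-- the weighted sum over the primes -/
theorem BB1 : ∃ C : ℝ, ∀ N : ℕ, 1 ≤ N →
    ∑ n ∈ range (N + 1), (if n.Prime ∧ n % 3 = 1 then Real.log n / n else 0) ≤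
      1 / 2 * Real.log N + C := by
  obtain ⟨C, hC⟩ := UU_le
  refine ⟨1 / 2 * (Real.log 4 + 4) + 1 / 2 * C, fun N hN => ?_⟩
  have h1 : ∑ n ∈ range (N + 1), (if n.Prime ∧ n % 3 = 1 then Real.log n / n else 0) ≤
      ∑ n ∈ Ioc 0 N, (1 / 2 * (Λ n / n) + 1 / 2 * fA n) := by
    have h2 : ∑ n ∈ range (N + 1), (if n.Prime ∧ n % 3 = 1 then Real.log n / n else 0) =
        ∑ n ∈ Ioc 0 N, (if n.Prime ∧ n % 3 = 1 then Real.log n / n else 0) := by
      symm
      apply sum_subset
      · intro x hx
        rw [mem_range]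
        have := (mem_Ioc.1 hx).2
        omega
      · intro x hx hx'
        have : x = 0 := by
          rw [mem_range] at hx
          rw [mem_Ioc] at hx'
          omega
        rw [this]
        simp
    rw [h2]
    refine sum_le_sum fun n hn => ?_
    have h9 := ArithmeticFunction.vonMangoldt_nonneg (n := n)
    have hn0 : 0 < n := (mem_Ioc.1 hn).1
    have hn0' : (0 : ℝ) < n := by exact_mod_cast hn0
    rw [fA_apply]
    split_ifs with h
    · rw [ch_one h.2, ArithmeticFunction.vonMangoldt_apply_prime h.1]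
      apply le_of_eq
      ring
    · have h3 := (abs_le.1 (abs_ch n)).1
      have h4 : -(Λ n / n) ≤ ch n * Λ n / n := by
        have : (-1) * Λ n ≤ ch n * Λ n := by gcongr
        have h5 : -(Λ n / n) = (-1) * Λ n / n := by ring
        rw [h5]
        gcongr
      linarith
  rw [sum_add_distrib, ← mul_sum, ← mul_sum] at h1
  have h2 := mert hN
  have h3 := (abs_le.1 (hC N hN)).2
  linarith

theorem mer1 : ∃ C : ℝ, ∀ y : ℕ, 3 ≤ y →
    ∑ p ∈ (range (y + 1)).filter (fun p => p.Prime ∧ p % 3 = 1), (1 : ℝ) / p ≤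
      1 / 2 * Real.log (Real.log y) + C := by
  obtain ⟨C, hC⟩ := BB1
  set a : ℕ → ℝ := fun n => if n.Prime ∧ n % 3 = 1 then Real.log n / n else 0 with ha
  set b : ℕ → ℝ := fun n => if n.Prime ∧ n % 3 = 1 then 1 / (n : ℝ) else 0 with hb
  have hab : ∀ n : ℕ, 2 ≤ n → b n = a n / Real.log n := by
    intro n hn
    have : 0 < Real.log n := Real.log_pos (by exact_mod_cast hn)
    simp only [ha, hb]
    split_ifs
    · field_simp
    · simp
  have key : ∀ N : ℕ, 2 ≤ N → ∑ n ∈ range (N + 1), b n ≤ (∑ n ∈ range (N + 1), a n) / Real.log N +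
      1 / 2 * (Real.log (Real.log N) - Real.log (Real.log 2)) +
      C * (1 / Real.log 2 - 1 / Real.log N) := by
    intro N hN
    induction N, hN using Nat.le_induction with
    | base =>
      have e1 : ∑ n ∈ range (2 + 1), b n = b 2 := by
        simp [sum_range_succ, hb, Nat.not_prime_zero, Nat.not_prime_one]
      have e2 : ∑ n ∈ range (2 + 1), a n = a 2 := by
        simp [sum_range_succ, ha, Nat.not_prime_zero, Nat.not_prime_one]
      rw [e1, e2, hab 2 le_rfl]
      push_cast
      simp
    | succ N hN ih =>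
      rw [sum_range_succ b, sum_range_succ a, add_div, hab (N + 1) (by omega)]
      have hl : 0 < Real.log N := Real.log_pos (by exact_mod_cast hN)
      have hl1 : Real.log N < Real.log ((N + 1 : ℕ) : ℝ) :=
        Real.log_lt_log (by exact_mod_cast (by omega : 0 < N)) (by exact_mod_cast Nat.lt_succ_self N)
      have hB := hC N (by omega)
      set B := ∑ n ∈ range (N + 1), a n with hBd
      set l := Real.log N with hld
      set l' := Real.log ((N + 1 : ℕ) : ℝ) with hld'
      have hl' : 0 < l' := hl.trans hl1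
      have hδ : 0 ≤ 1 / l - 1 / l' := by
        have : 1 / l' ≤ 1 / l := one_div_le_one_div_of_le hl hl1.le
        linarith
      have h1 : (B - C) * (1 / l - 1 / l') ≤ 1 / 2 * l * (1 / l - 1 / l') := by
        apply mul_le_mul_of_nonneg_right _ hδ
        linarith
      have h2 : l * (1 / l - 1 / l') = 1 - l / l' := by field_simp
      have h3 : Real.log (l / l') ≤ l / l' - 1 := Real.log_le_sub_one_of_pos (by positivity)
      rw [Real.log_div hl.ne' hl'.ne'] at h3
      have h4 : (B - C) * (1 / l - 1 / l') = B / l - B / l' - C * (1 / l) + C * (1 / l') := by ring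
      have h5 : 1 / 2 * l * (1 / l - 1 / l') = 1 / 2 * (1 - l / l') := by rw [mul_assoc, h2]
      rw [h4, h5] at h1
      linarith
  refine ⟨1 / 2 - 1 / 2 * Real.log (Real.log 2) + C * (1 / Real.log 2), fun y hy => ?_⟩
  rw [sum_filter]
  have h1 := key y (by omega)
  have h2 := hC y (by omega)
  have hl : 0 < Real.log y := Real.log_pos (by exact_mod_cast (by omega : 1 < y))
  have h3 : (∑ n ∈ range (y + 1), a n) / Real.log y ≤ (1 / 2 * Real.log y + C) / Real.log y := by
    gcongr
  have h4 : (1 / 2 * Real.log y + C) / Real.log y = 1 / 2 + C * (1 / Real.log y) := by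
    field_simp
  have h5 : ∑ n ∈ range (y + 1), b n =
      ∑ n ∈ range (y + 1), if n.Prime ∧ n % 3 = 1 then 1 / (n : ℝ) else 0 := rfl
  rw [← h5]
  linarith

end Pool.Agent.R419.CF.Mer
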