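import Pool.Agent.R419.CF.Defs
import Pool.Agent.R419.CF.Mer1
import Pool.Agent.Y37.CX.Fam
import Pool.Agent.Y495.CX.FEW
import Pool.Agent.Y703.CX.Asy

/-!
# Project CF: the contribution of the numbers `D = a b²` with large `b`
-/

set_option autoImplicit false

open scoped Classical

namespace Pool.Agent.R419.CF.Tail

open Finset Filter
open Pool.Agent.Y703.CX
open Pool.Agent.R419.CF
open Pool.Agent.Y37.CX (UU sum_UU mem_UU Pm Pm_nonneg Pm_mono Pm_le prod_pos_of sub_range mod3 ev_pow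
  prod_sub_le)
open Pool.Agent.Y699.E (sum_le_inj)

/-- the family of the parts outside `M` -/
noncomputable def FF (Z : ℕ) : Finset (Finset ℕ) :=
  (range (Z + 1)).powerset.filter fun T => (∀ p ∈ T, p.Prime ∧ p ≠ 3) ∧
    (T.filter fun p => p % 3 = 2).card ≤ 1 ∧ ∏ p ∈ T, p ≤ Z

theorem mem_FF {Z : ℕ} {T : Finset ℕ} : T ∈ FF Z ↔ (∀ p ∈ T, p.Prime ∧ p ≠ 3) ∧
    (T.filter fun p => p % 3 = 2).card ≤ 1 ∧ ∏ p ∈ T, p ≤ Z := by
  unfold FF
  rw [mem_filter, mem_powerset]
  constructor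
  · exact fun h => h.2
  · exact fun h => ⟨sub_range (fun p hp => (h.1 p hp).1) h.2.2, h⟩

theorem FF_le (Z : ℕ) : (FF Z).card ≤ Z := by
  have h1 : (Icc 1 Z).card = Z := by simp
  refine le_trans ?_ h1.le
  refine card_le_card_of_injOn (fun T => ∏ p ∈ T, p) ?_ ?_
  · intro T hT
    rw [mem_coe, mem_FF] at hT
    rw [mem_coe, mem_Icc]
    exact ⟨prod_pos_of fun p hp => (hT.1 p hp).1, hT.2.2⟩
  · intro S hS T hT h
    rw [mem_coe, mem_FF] at hS hT
    have h3 := Nat.primeFactors_prod (s := S) fun p hp => (hS.1 p hp).1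
    have h4 := Nat.primeFactors_prod (s := T) fun p hp => (hT.1 p hp).1
    rw [← h3, ← h4]
    exact congrArg Nat.primeFactors h

/-- the logarithmic sum -/
theorem FF_sum {Z X : ℕ} (hZ : Z ≤ X) :
    ∑ T ∈ FF Z, (1 : ℝ) / ((∏ p ∈ T, p : ℕ) : ℝ) ≤ (1 + Pm X) *
      Real.exp (∑ p ∈ (range (X + 1)).filter (fun p => p.Prime ∧ p % 3 = 1), (1 : ℝ) / p) := by
  set P1 := (range (X + 1)).filter (fun p => p.Prime ∧ p % 3 = 1) with hP1
  have h0 : ∑ T ∈ FF Z, (1 : ℝ) / ((∏ p ∈ T, p : ℕ) : ℝ) ≤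
      ∑ x ∈ UU X ×ˢ P1.powerset, (1 : ℝ) / ((∏ p ∈ x.1, p : ℕ) : ℝ) *
        ∏ p ∈ x.2, (1 : ℝ) / p := by
    refine sum_le_inj (fun T => (T.filter (fun p => p % 3 = 2), T.filter (fun p => ¬ p % 3 = 2)))
      ?_ ?_ ?_ ?_
    · intro T hT
      rw [mem_FF] at hT
      obtain ⟨h2, h3, h5⟩ := hT
      have hpr : ∀ p ∈ T, p.Prime := fun p hp => (h2 p hp).1
      have h1 := sub_range hpr h5
      have hle : ∀ p ∈ T, p ≤ X := fun p hp => by
        have := mem_range.1 (h1 hp); omega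
      rw [mem_product]
      refine ⟨mem_UU h3 fun p hp => ⟨hpr p (mem_filter.1 hp).1, hle p (mem_filter.1 hp).1⟩, ?_⟩
      rw [mem_powerset]
      intro p hp
      obtain ⟨k1, k2⟩ := mem_filter.1 hp
      rw [hP1, mem_filter, mem_range]
      have k3 := hle p k1
      have k4 := mod3 (h2 p k1).1 (h2 p k1).2
      exact ⟨by omega, hpr p k1, by omega⟩
    · intro S hS T hT h
      simp only [Prod.mk.injEq] at h
      obtain ⟨h1, h2⟩ := h
      rw [← filter_union_filter_not_eq (fun p => p % 3 = 2) S,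
        ← filter_union_filter_not_eq (fun p => p % 3 = 2) T, h1, h2]
    · intro T hT
      apply le_of_eq
      simp only
      rw [← prod_filter_mul_prod_filter_not T (fun p => p % 3 = 2), prod_div_distrib,
        prod_const_one]
      push_cast
      rw [one_div_mul_one_div]
    · intro x _
      exact mul_nonneg (by positivity) (prod_nonneg fun _ _ => by positivity)
  refine h0.trans ?_
  rw [sum_product]
  simp_rw [← mul_sum]
  rw [← sum_mul, sum_UU]
  apply mul_le_mul_of_nonneg_left _ (by have := Pm_nonneg X; linarith)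
  exact Pool.Agent.Y495.CX.Few.euler P1 (fun p => (1 : ℝ) / p) fun p _ => by positivity

/-- the size of the family -/
theorem FF_card (hS : S_SIE) : ∃ C : ℝ, 0 ≤ C ∧ ∀ᶠ X : ℕ in atTop, ∀ Z : ℕ, Z ≤ X → 1 ≤ Z →
    Real.log X ≤ 3 * Real.log Z →
    ((FF Z).card : ℝ) ≤ C * Z * ((1 + eL X) * Real.exp (-(eL X) / 2)) := by
  obtain ⟨C, hC1, hC⟩ := hS
  obtain ⟨C₁, hC₁, h1⟩ := Pm_le
  obtain ⟨C₂, h2⟩ := Mer.mer1
  refine ⟨3 * C * (1 + C₁) * Real.exp C₂, by positivity, ?_⟩
  filter_upwards [ev_eL 1, eventually_ge_atTop 3] with X hl hX3 Z hZX hZ1 hlZ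
  have hl0 : 0 < eL X := by linarith
  have h3 := hC Z (FF Z) hZ1
    (fun S hS => ⟨fun p hp => ((mem_FF.1 hS).1 p hp).1, (mem_FF.1 hS).2.2⟩)
    (fun S hS T hT => by
      rw [mem_FF] at hS ⊢
      obtain ⟨k1, k2, k3⟩ := hS
      refine ⟨fun p hp => k1 p (hT hp), ?_, ?_⟩
      · exact (card_le_card (filter_subset_filter _ hT)).trans k2
      · exact (prod_sub_le hT fun p hp => (k1 p hp).1).trans k3)
  have h4 := FF_sum hZX
  have h5 := h1 X hX3
  have h6 := h2 X hX3
  have h7 : Real.log (Real.log X) = eL X := rfl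
  rw [h7] at h5 h6
  have hP0 := Pm_nonneg X
  have h8 : (1 + Pm X) * Real.exp (∑ p ∈ (range (X + 1)).filter
      (fun p => p.Prime ∧ p % 3 = 1), (1 : ℝ) / p) ≤
      ((1 + C₁) * (1 + eL X)) * (Real.exp C₂ * Real.exp (eL X / 2)) := by
    have e1 : 1 + Pm X ≤ (1 + C₁) * (1 + eL X) := by nlinarith
    have e2 : Real.exp (∑ p ∈ (range (X + 1)).filter (fun p => p.Prime ∧ p % 3 = 1), (1 : ℝ) / p) ≤
        Real.exp C₂ * Real.exp (eL X / 2) := by
      rw [← Real.exp_add]
      apply Real.exp_le_exp.2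
      linarith
    exact mul_le_mul e1 e2 (Real.exp_pos _).le (by positivity)
  have hZ0 : (0 : ℝ) ≤ Z := Nat.cast_nonneg _
  have hC0 : (0 : ℝ) ≤ C := by linarith
  have h9 : ((FF Z).card : ℝ) * Real.log Z ≤ C * Z *
      (((1 + C₁) * (1 + eL X)) * (Real.exp C₂ * Real.exp (eL X / 2))) := by
    refine h3.trans ?_
    exact mul_le_mul_of_nonneg_left (h4.trans h8) (by positivity)
  have h10 : ((FF Z).card : ℝ) * Real.exp (eL X) ≤ 3 * (C * Z *
      (((1 + C₁) * (1 + eL X)) * (Real.exp C₂ * Real.exp (eL X / 2)))) := by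
    rw [← logX_eq hl0]
    have : ((FF Z).card : ℝ) * Real.log X ≤ ((FF Z).card : ℝ) * (3 * Real.log Z) :=
      mul_le_mul_of_nonneg_left hlZ (Nat.cast_nonneg _)
    linarith
  have h11 : Real.exp (eL X / 2) = Real.exp (-(eL X) / 2) * Real.exp (eL X) := by
    rw [← Real.exp_add]
    congr 1
    ring
  rw [h11] at h10
  refine le_of_mul_le_mul_right ?_ (Real.exp_pos (eL X))
  refine h10.trans (le_of_eq ?_)
  ring

theorem sq_sum {k n : ℕ} (hk : k ≠ 0) : ∑ i ∈ Ioc k n, (1 : ℝ) / ((i : ℝ) ^ 2) ≤ 1 / k := by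
  rcases le_total k n with h | h
  · have h1 := sum_Ioc_inv_sq_le_sub (α := ℝ) hk h
    have h2 : (0 : ℝ) ≤ (n : ℝ)⁻¹ := by positivity
    simp only [one_div]
    linarith
  · rw [Ioc_eq_empty (by omega), sum_empty]
    positivity

/-- the bound for `b` -/
noncomputable def BB (X : ℕ) : ℕ := (kk X) ^ 2

/-- the second bound for `b` -/
noncomputable def QQ (X : ℕ) : ℕ := ⌈Real.log X⌉₊

theorem tail (hS : S_SIE) : Sml fun X => ∑ b ∈ Ioc (BB X) X, ((FF (X / b ^ 2)).card : ℝ) := by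
  obtain ⟨C, hC0, hC⟩ := FF_card hS
  have hL := Real.tendsto_log_atTop.comp (tendsto_natCast_atTop_atTop (R := ℝ))
  -- the first part
  have key : ∀ᶠ X : ℕ in atTop, ∑ b ∈ Ioc (BB X) X, ((FF (X / b ^ 2)).card : ℝ) ≤
      C * X * ((1 + eL X) * Real.exp (-(eL X) / 2)) * (1 / (BB X : ℕ)) + X * Real.exp (-1 * eL X) := by
    filter_upwards [hC, ev_eL 2, hL.eventually (ev_pow 2 (show (0 : ℝ) < 4 by norm_num)
      (show (0 : ℝ) < 3 by norm_num)), hL.eventually (eventually_ge_atTop (3 : ℝ))] with X h1 hl h2 h3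
    simp only [Function.comp] at h2 h3
    have hl0 : 0 < eL X := by linarith
    have hX0 : (0 : ℝ) < X := by exact_mod_cast X_pos hl0
    have hB : BB X ≠ 0 := by
      unfold BB
      have := kk_ge X
      have : (0 : ℝ) < kk X := by linarith
      have : 0 < kk X := by exact_mod_cast this
      positivity
    have hQ0 : (0 : ℝ) < QQ X := by
      unfold QQ
      have := Nat.le_ceil (Real.log (X : ℝ))
      linarith
    have hQne : QQ X ≠ 0 := by
      intro h
      rw [h] at hQ0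
      norm_num at hQ0
    have hQle : (QQ X : ℝ) ≤ 2 * Real.log X := by
      unfold QQ
      have := (Nat.ceil_lt_add_one (a := Real.log (X : ℝ)) (by linarith)).le
      linarith
    have hQge : Real.log X ≤ QQ X := Nat.le_ceil _
    have hpart : ∀ b : ℕ, ((X / b ^ 2 : ℕ) : ℝ) ≤ X * (1 / (b : ℝ) ^ 2) := by
      intro b
      refine Nat.cast_div_le.trans (le_of_eq ?_)
      push_cast
      ring
    have hA : ∑ b ∈ Ioc (BB X) (QQ X), ((FF (X / b ^ 2)).card : ℝ) ≤
        C * X * ((1 + eL X) * Real.exp (-(eL X) / 2)) * (1 / (BB X : ℕ)) := by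
      have e1 : ∀ b ∈ Ioc (BB X) (QQ X), ((FF (X / b ^ 2)).card : ℝ) ≤
          C * X * ((1 + eL X) * Real.exp (-(eL X) / 2)) * (1 / (b : ℝ) ^ 2) := by
        intro b hb
        rw [mem_Ioc] at hb
        have hb0 : (0 : ℝ) < b := by exact_mod_cast (by omega : 0 < b)
        have hbQ : (b : ℝ) ≤ 2 * Real.log X := le_trans (by exact_mod_cast hb.2) hQle
        have hb2 : (b : ℝ) ^ 2 ≤ Real.exp (Real.log X / 3) := by
          refine le_trans ?_ h2
          have := pow_le_pow_left₀ hb0.le hbQ 2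
          linarith
        have e2 : Real.exp (Real.log X / 3) * Real.exp (Real.log X / 3) ≤ (X : ℝ) / (b : ℝ) ^ 2 := by
          rw [le_div_iff₀ (by positivity)]
          calc _ ≤ Real.exp (Real.log X / 3) * Real.exp (Real.log X / 3) *
                Real.exp (Real.log X / 3) := by gcongr
            _ = Real.exp (Real.log X) := by
                rw [← Real.exp_add, ← Real.exp_add]
                congr 1
                ring
            _ = X := Real.exp_log hX0
        have e3 : (X : ℝ) / (b : ℝ) ^ 2 < ((X / b ^ 2 : ℕ) : ℝ) + 1 := by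
          rw [div_lt_iff₀ (by positivity)]
          have := Nat.lt_mul_div_succ X (show 0 < b ^ 2 from pow_pos (by omega) 2)
          have h' : ((X : ℕ) : ℝ) < ((b ^ 2 * (X / b ^ 2 + 1) : ℕ) : ℝ) := by exact_mod_cast this
          push_cast at h'
          push_cast
          linarith
        have e4 : (2 : ℝ) ≤ Real.exp (Real.log X / 3) := by
          have := Real.add_one_le_exp (Real.log X / 3)
          linarith
        have e5 : Real.exp (Real.log X / 3) ≤ ((X / b ^ 2 : ℕ) : ℝ) := by nlinarith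
        have hZ0 : (0 : ℝ) < ((X / b ^ 2 : ℕ) : ℝ) := by linarith
        have hZ1 : 1 ≤ X / b ^ 2 := by exact_mod_cast hZ0
        have e6 : Real.log X ≤ 3 * Real.log ((X / b ^ 2 : ℕ) : ℝ) := by
          have : Real.log X / 3 ≤ Real.log ((X / b ^ 2 : ℕ) : ℝ) := by
            rw [Real.le_log_iff_exp_le hZ0]
            exact e5
          linarith
        have e7 := h1 (X / b ^ 2) (Nat.div_le_self _ _) hZ1 e6
        refine e7.trans ?_
        have e8 := hpart b
        have e9 : (0 : ℝ) ≤ (1 + eL X) * Real.exp (-(eL X) / 2) := by positivity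
        calc C * ((X / b ^ 2 : ℕ) : ℝ) * ((1 + eL X) * Real.exp (-(eL X) / 2)) ≤
            C * (X * (1 / (b : ℝ) ^ 2)) * ((1 + eL X) * Real.exp (-(eL X) / 2)) := by gcongr
          _ = _ := by ring
      refine (sum_le_sum e1).trans ?_
      rw [← mul_sum]
      apply mul_le_mul_of_nonneg_left (sq_sum hB)
      positivity
    have hB' : ∑ b ∈ Ioc (QQ X) X, ((FF (X / b ^ 2)).card : ℝ) ≤ X * Real.exp (-1 * eL X) := by
      have e1 : ∀ b ∈ Ioc (QQ X) X, ((FF (X / b ^ 2)).card : ℝ) ≤ X * (1 / (b : ℝ) ^ 2) := by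
        intro b _
        refine le_trans ?_ (hpart b)
        exact_mod_cast FF_le _
      refine (sum_le_sum e1).trans ?_
      rw [← mul_sum]
      apply mul_le_mul_of_nonneg_left _ hX0.le
      refine (sq_sum hQne).trans ?_
      rw [neg_one_mul, Real.exp_neg, ← logX_eq hl0, ← one_div]
      exact one_div_le_one_div_of_le (by linarith) hQge
    have hsub : Ioc (BB X) X ⊆ Ioc (BB X) (QQ X) ∪ Ioc (QQ X) X := by
      intro b hb
      rw [mem_Ioc] at hb
      rw [mem_union, mem_Ioc, mem_Ioc]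
      omega
    have h5 : ∑ b ∈ Ioc (BB X) X, ((FF (X / b ^ 2)).card : ℝ) ≤
        ∑ b ∈ Ioc (BB X) (QQ X), ((FF (X / b ^ 2)).card : ℝ) +
        ∑ b ∈ Ioc (QQ X) X, ((FF (X / b ^ 2)).card : ℝ) := by
      refine (sum_le_sum_of_subset_of_nonneg hsub fun _ _ _ => Nat.cast_nonneg _).trans ?_
      rw [← sum_union_inter]
      have : (0 : ℝ) ≤ ∑ b ∈ Ioc (BB X) (QQ X) ∩ Ioc (QQ X) X, ((FF (X / b ^ 2)).card : ℝ) :=
        sum_nonneg fun _ _ => Nat.cast_nonneg _
      linarith
    linarith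
  have s1 : Sml fun X => (X : ℝ) * Real.exp (-1 * eL X) := by
    apply sml_of (C := 1) (a := 1) (by norm_num)
    filter_upwards with X
    linarith
  have s2 : Sml fun X => C * X * ((1 + eL X) * Real.exp (-(eL X) / 2)) * (1 / (BB X : ℕ)) := by
    intro δ hδ
    filter_upwards [ev_eL 1, ev_eL (2 * C / (100 * δ))] with X hl h1
    have hl0 : 0 < eL X := by linarith
    have hB : 100 * eL X ^ 2 ≤ (BB X : ℕ) := by
      unfold BB
      have := kk_ge X
      push_cast
      have := pow_le_pow_left₀ (by linarith : 0 ≤ 10 * eL X) this 2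
      linarith
    have hX0 : (0 : ℝ) ≤ X := Nat.cast_nonneg _
    have h2 : C * (1 + eL X) * (1 / (BB X : ℕ)) ≤ δ := by
      have e1 : C * (1 + eL X) * (1 / (BB X : ℕ)) ≤ C * (2 * eL X) * (1 / (100 * eL X ^ 2)) := by
        have : (1 : ℝ) / (BB X : ℕ) ≤ 1 / (100 * eL X ^ 2) :=
          one_div_le_one_div_of_le (by positivity) hB
        have h3 : 1 + eL X ≤ 2 * eL X := by linarith
        gcongr
      refine e1.trans ?_
      have e2 : C * (2 * eL X) * (1 / (100 * eL X ^ 2)) = (2 * C / 100) / eL X := by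
        field_simp
      rw [e2, div_le_iff₀ hl0]
      have e3 : 2 * C / (100 * δ) * δ ≤ eL X * δ := mul_le_mul_of_nonneg_right h1 hδ.le
      have e4 : 2 * C / (100 * δ) * δ = 2 * C / 100 := by field_simp
      linarith
    calc C * X * ((1 + eL X) * Real.exp (-(eL X) / 2)) * (1 / (BB X : ℕ)) =
        (C * (1 + eL X) * (1 / (BB X : ℕ))) * (X * Real.exp (-(eL X) / 2)) := by ring
      _ ≤ _ := mul_le_mul_of_nonneg_right h2 (by positivity)
  have s := sml_add s2 s1
  intro δ hδ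
  filter_upwards [s δ hδ, key] with X h1 h2
  exact h2.trans h1

end Pool.Agent.R419.CF.Tail
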