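import Pool.Agent.R419.CF.Key
import Pool.Agent.R419.CF.Cnt
import Pool.Agent.R419.CF.Few
import Pool.Agent.R419.CF.Bad
import Pool.Agent.R419.CF.Tail
import Pool.Agent.R419.CF.NS
import Pool.Agent.Y703.CX.Asy

/-!
# Project CF: the final asymptotics

Parts are adapted from the file `Y703/CX/Asy.lean`.
-/

set_option autoImplicit false

open scoped Classical
open Finset Filter

namespace Pool.Agent.R419.CF.Asy

open Pool.Agent.Y703.CX Pool.Agent.R419.CF
open Pool.Agent.R419.CF.NS (MM mem_MM MD cnt cnt1)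
open Pool.Agent.R419.CF.Tail (FF mem_FF BB tail)
open Pool.Agent.Y703.CT (Cls NoSplit)

/-- at most `X (log X)^{-3/5}` -/
def SmA (E : ℕ → ℝ) : Prop := ∃ C : ℝ, 0 ≤ C ∧ ∀ᶠ X : ℕ in atTop,
  E X ≤ C * (X * Real.exp (-(3 / 5) * eL X))

theorem sma_of {E : ℕ → ℝ} {C a : ℝ} (ha : 3 / 5 ≤ a)
    (h : ∀ᶠ X : ℕ in atTop, E X ≤ C * (X * Real.exp (-a * eL X))) : SmA E := by
  refine ⟨|C|, abs_nonneg _, ?_⟩
  filter_upwards [h, ev_eL 0] with X h1 h2
  have e1 : Real.exp (-a * eL X) ≤ Real.exp (-(3 / 5) * eL X) := by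
    apply Real.exp_le_exp.2
    nlinarith
  calc E X ≤ C * (X * Real.exp (-a * eL X)) := h1
    _ ≤ |C| * (X * Real.exp (-a * eL X)) :=
        mul_le_mul_of_nonneg_right (le_abs_self C) (by positivity)
    _ ≤ |C| * (X * Real.exp (-(3 / 5) * eL X)) := by gcongr

theorem sma_add {E F : ℕ → ℝ} (hE : SmA E) (hF : SmA F) : SmA fun X => E X + F X := by
  obtain ⟨C₁, h1, h2⟩ := hE
  obtain ⟨C₂, h3, h4⟩ := hF
  refine ⟨C₁ + C₂, by linarith, ?_⟩
  filter_upwards [h2, h4] with X h5 h6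
  linarith

theorem sma_rpow {E : ℕ → ℝ} {C : ℝ} {X₀ : ℕ} (h : ∀ X : ℕ, X₀ ≤ X → E X ≤ C * X *
    (Real.log X) ^ (-(3 / 5) : ℝ)) : SmA E := by
  apply sma_of (C := C) (a := 3 / 5) (by norm_num)
  filter_upwards [eventually_ge_atTop X₀, ev_eL 1] with X h1 h2
  have h3 := h X h1
  rw [rpow_eL (by linarith)] at h3
  rw [← mul_assoc]
  exact h3

/-- sets with many primes -/
theorem sma_many : SmA fun X => (((SG X).filter fun S => kk X < S.card).card : ℝ) := by
  apply sma_of (C := 2) (a := 1) (by norm_num)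
  filter_upwards [ev_eL 1] with X hX
  have h0 : 0 < eL X := by linarith
  have h1 := Cnt.many_count (X := X) (K := kk X)
  have h2 : Real.exp (2 * eL X) ≤ 2 ^ kk X := by
    have e : (2 : ℝ) ^ kk X = Real.exp (kk X * Real.log 2) := by
      rw [mul_comm, Real.exp_mul, Real.exp_log (by norm_num), Real.rpow_natCast]
    rw [e]
    apply Real.exp_le_exp.2
    have h3 := kk_ge X
    have h4 := Real.log_two_gt_d9
    nlinarith
  have hX0 : (0 : ℝ) ≤ X := Nat.cast_nonneg _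
  have h5 : (((SG X).filter fun S => kk X < S.card).card : ℝ) * Real.exp (2 * eL X) ≤
      X * (2 * Real.exp (eL X)) := by
    calc _ ≤ (((SG X).filter fun S => kk X < S.card).card : ℝ) * 2 ^ kk X := by gcongr
      _ ≤ X * (1 + Real.log X) := h1
      _ ≤ _ := mul_le_mul_of_nonneg_left (one_add_log h0) hX0
  have h6 : (2 : ℝ) * (X * Real.exp (-1 * eL X)) * Real.exp (2 * eL X) = X * (2 * Real.exp (eL X)) := by
    have e : Real.exp (-1 * eL X) * Real.exp (2 * eL X) = Real.exp (eL X) := by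
      rw [← Real.exp_add]; congr 1; ring
    calc _ = 2 * X * (Real.exp (-1 * eL X) * Real.exp (2 * eL X)) := by ring
      _ = _ := by rw [e]; ring
  rw [← h6] at h5
  exact le_of_mul_le_mul_right h5 (Real.exp_pos _)

/-- sets near the boundary -/
theorem sma_cut : SmA fun X => (X : ℝ) * kk X / HH X + 1 := by
  apply sma_of (C := 2) (a := 1) (by norm_num)
  have hlog : ∀ᶠ X : ℕ in atTop, Real.exp (eL X) ≤ X := by
    filter_upwards [ev_eL 1] with X hX
    rw [← logX_eq (by linarith)]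
    exact (Real.log_le_sub_one_of_pos (by exact_mod_cast X_pos (by linarith))).trans (by linarith)
  filter_upwards [ev_eL 1, lin_le (a := 1) (b := 11) (by norm_num) (by norm_num), hlog] with X hX h11 hl
  have h0 : 0 < eL X := by linarith
  have hH := HH_ge h0
  have hHp : (0 : ℝ) < HH X := lt_of_lt_of_le (Real.exp_pos _) hH
  have hX0 : (0 : ℝ) ≤ X := Nat.cast_nonneg _
  have h2 : (X : ℝ) * kk X / HH X ≤ X * Real.exp (-1 * eL X) := by
    rw [div_le_iff₀ hHp]
    calc (X : ℝ) * kk X ≤ X * Real.exp (eL X) := by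
          have := kk_le hX
          rw [one_mul] at h11
          have : (kk X : ℝ) ≤ Real.exp (eL X) := by linarith
          gcongr
      _ ≤ X * (Real.exp (-1 * eL X) * Real.exp (3 * eL X)) := by
          rw [← Real.exp_add]
          apply mul_le_mul_of_nonneg_left _ hX0
          apply Real.exp_le_exp.2
          linarith
      _ ≤ X * Real.exp (-1 * eL X) * HH X := by
          rw [mul_assoc]
          gcongr
  have h3 : (1 : ℝ) ≤ X * Real.exp (-1 * eL X) := by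
    have e : Real.exp (eL X) * Real.exp (-1 * eL X) = 1 := by
      rw [← Real.exp_add]
      have : eL X + -1 * eL X = 0 := by ring
      rw [this, Real.exp_zero]
    calc (1 : ℝ) = Real.exp (eL X) * Real.exp (-1 * eL X) := e.symm
      _ ≤ X * Real.exp (-1 * eL X) := mul_le_mul_of_nonneg_right hl (Real.exp_pos _).le
  linarith

/-- sets with two primes in one block -/
theorem sma_coll : SmA fun X => (((SG X).filter fun S =>
    ¬ Set.InjOn (jj (HH X)) (la (zz X) S : Set ℕ)).card : ℝ) := by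
  apply sma_of (C := 8) (a := 2) (by norm_num)
  filter_upwards [ev_eL 1] with X hX
  have h0 : 0 < eL X := by linarith
  have h1 := Cnt.coll_count (X := X) (z := zz X) (H := HH X) (HH_pos h0)
  refine h1.trans ?_
  have hH := HH_ge h0
  have hHp : (0 : ℝ) < HH X := lt_of_lt_of_le (Real.exp_pos _) hH
  have hX0 : (0 : ℝ) ≤ X := Nat.cast_nonneg _
  rw [div_le_iff₀ hHp]
  calc 4 * (X : ℝ) * (1 + Real.log X) ≤ 4 * X * (2 * Real.exp (eL X)) := by
        have := one_add_log h0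
        gcongr
    _ = 8 * (X * (Real.exp (-2 * eL X) * Real.exp (3 * eL X))) := by
        rw [← Real.exp_add]
        have : -2 * eL X + 3 * eL X = eL X := by ring
        rw [this]
        ring
    _ ≤ 8 * (X * (Real.exp (-2 * eL X) * HH X)) := by gcongr
    _ = 8 * (X * Real.exp (-2 * eL X)) * HH X := by ring

/-- the main error term -/
theorem sma_main {C : ℝ} (hC : 1 ≤ C) : SmA fun X => (9 * (NN X : ℝ) + 9) ^ kk X *
    (3 ^ (3 * kk X ^ 2) * kap C X) * (X * (1 + Real.log X)) := by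
  apply sma_of (C := 4 * C) (a := 1) (by norm_num)
  filter_upwards [ev_eL 5500] with X hX
  set l := eL X with hl
  have h0 : 0 < eL X := by linarith
  have h1 : 1 ≤ eL X := by linarith
  have hX0 : (0 : ℝ) ≤ X := Nat.cast_nonneg _
  have hN : 9 * (NN X : ℝ) + 9 ≤ Real.exp (5 * l) := by
    have h2 : (NN X : ℝ) ≤ HH X * Real.log X + 1 := by
      unfold NN
      push_cast
      have := Nat.floor_le (a := (HH X : ℝ) * Real.log X)
        (mul_nonneg (Nat.cast_nonneg _) (Real.log_natCast_nonneg X))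
      linarith
    have h3 : (HH X : ℝ) * Real.log X ≤ 2 * Real.exp (4 * l) := by
      rw [logX_eq h0]
      calc (HH X : ℝ) * Real.exp (eL X) ≤ 2 * Real.exp (3 * eL X) * Real.exp (eL X) :=
            mul_le_mul_of_nonneg_right (HH_le h0) (Real.exp_pos _).le
        _ = 2 * Real.exp (4 * l) := by
            rw [mul_assoc, ← Real.exp_add]
            congr 2
            rw [hl]
            ring
    have h4 : 1 ≤ Real.exp (4 * l) := one_le_exp (by linarith)
    have h5 : (36 : ℝ) ≤ Real.exp l := by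
      have := Real.add_one_le_exp l
      linarith
    have h6 : Real.exp (5 * l) = Real.exp (4 * l) * Real.exp l := by
      rw [← Real.exp_add]; congr 1; ring
    rw [h6]
    nlinarith
  have hkk := kk_le h1
  have hkk0 : (0 : ℝ) ≤ kk X := Nat.cast_nonneg _
  have hA : (9 * (NN X : ℝ) + 9) ^ kk X ≤ Real.exp (55 * l ^ 2) := by
    calc (9 * (NN X : ℝ) + 9) ^ kk X ≤ (Real.exp (5 * l)) ^ kk X := by gcongr
      _ = Real.exp (kk X * (5 * l)) := (Real.exp_nat_mul _ _).symm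
      _ ≤ Real.exp (55 * l ^ 2) := by
          apply Real.exp_le_exp.2
          nlinarith
  have hB : (3 : ℝ) ^ (3 * kk X ^ 2) ≤ Real.exp (400 * l ^ 2) := by
    have e : (3 : ℝ) ^ (3 * kk X ^ 2) = Real.exp ((3 * (kk X : ℝ) ^ 2) * Real.log 3) := by
      rw [mul_comm (3 * (kk X : ℝ) ^ 2) (Real.log 3), Real.exp_mul, Real.exp_log (by norm_num)]
      rw [← Real.rpow_natCast]
      congr 1
      push_cast
      ring
    rw [e]
    apply Real.exp_le_exp.2
    have h2 : Real.log 3 ≤ 1.1 := by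
      have h3 : (3 : ℝ) ≤ Real.exp 1.1 := by
        have h4 : (2.7182818283 : ℝ) < Real.exp 1 := Real.exp_one_gt_d9
        have h5 : (1.105 : ℝ) ≤ Real.exp 0.1 := by
          have := Real.quadratic_le_exp_of_nonneg (x := 0.1) (by norm_num)
          norm_num at this ⊢
          linarith
        have h6 : Real.exp 1.1 = Real.exp 1 * Real.exp 0.1 := by
          rw [← Real.exp_add]; norm_num
        rw [h6]
        nlinarith
      calc Real.log 3 ≤ Real.log (Real.exp 1.1) := Real.log_le_log (by norm_num) h3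
        _ = 1.1 := Real.log_exp _
    have h3 : (kk X : ℝ) ^ 2 ≤ 121 * l ^ 2 := by nlinarith
    have h4 : 0 ≤ (kk X : ℝ) ^ 2 := sq_nonneg _
    nlinarith [sq_nonneg l]
  have hK := kap_le hC h1
  have hLg := one_add_log h0
  have hmain : (9 * (NN X : ℝ) + 9) ^ kk X * (3 ^ (3 * kk X ^ 2) * kap C X) *
      (X * (1 + Real.log X)) ≤ Real.exp (55 * l ^ 2) * (Real.exp (400 * l ^ 2) *
        (2 * C * Real.exp (-l ^ 3 / 12))) * (X * (2 * Real.exp l)) := by
    have := kap_nonneg hC X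
    have : 0 ≤ 1 + Real.log X := by
      have := Real.log_natCast_nonneg X
      linarith
    gcongr
  refine hmain.trans ?_
  have e : Real.exp (55 * l ^ 2) * (Real.exp (400 * l ^ 2) *
        (2 * C * Real.exp (-l ^ 3 / 12))) * (X * (2 * Real.exp l)) =
      4 * C * (X * Real.exp (55 * l ^ 2 + 400 * l ^ 2 + -l ^ 3 / 12 + l)) := by
    rw [Real.exp_add, Real.exp_add, Real.exp_add]
    ring
  rw [e]
  have h9 : 55 * l ^ 2 + 400 * l ^ 2 + -l ^ 3 / 12 + l ≤ -1 * l := by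
    have h10 : 5500 * l ^ 2 ≤ l ^ 3 := by
      have : l ^ 3 = l * l ^ 2 := by ring
      rw [this]
      exact mul_le_mul_of_nonneg_right hX (sq_nonneg l)
    nlinarith
  have h11 := Real.exp_le_exp.2 h9
  have hC0 : (0 : ℝ) ≤ 4 * C := by linarith
  gcongr

/-- the sets outside the regular part -/
theorem out_sub {X Y : ℕ} (hYX : Y ≤ X) (M : Finset ℕ) (z H K V : ℕ) :
    SW M Y \ ((RRW M Y z H K V).filter fun S => Nd (sm z S) (la z S)) ⊆
      (((((SG X).filter fun S => K < S.card) ∪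
      ((SG Y).filter fun S => S.card ≤ K ∧
        Y < (∏ p ∈ sm z S, p) * ∏ p ∈ la z S, XX H (jj H p))) ∪
      ((SG X).filter fun S => ¬ Set.InjOn (jj H) (la z S : Set ℕ))) ∪
      ((SG X).filter fun S => ((la z S).filter fun p => p % 3 = 1).card ≤ (sm z S).card + V)) ∪
      ((SG X).filter fun S => S.card ≤ K ∧ ¬ Nd (sm z S) (la z S)) := by
  intro S hS
  rw [Finset.mem_sdiff, Finset.mem_filter] at hS
  obtain ⟨h1, h2⟩ := hS
  have hY := SW_sub M Y h1
  have hX := SG_mono hYX hY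
  simp only [mem_union, mem_filter]
  by_contra hc
  push Not at hc
  obtain ⟨⟨⟨⟨c1, c2⟩, c3⟩, c4⟩, c5⟩ := hc
  have d1 : S.card ≤ K := c1 hX
  have d2 := c2 hY d1
  have d3 := c3 hX
  have d4 := c4 hX
  have d5 := c5 hX d1
  apply h2
  refine ⟨?_, d5⟩
  unfold RRW
  rw [mem_filter]
  exact ⟨h1, d3, d1, d2, d4⟩

/-- the comparison of the counts -/
theorem cmp (G : Finset ℕ → Prop) (T S : Finset (Finset ℕ)) (hTS : T ⊆ S) (c : ℝ) (hc0 : 0 ≤ c)
    (hc1 : c ≤ 1) :
    |((S.filter G).card : ℝ) - c * (S.card : ℝ)| ≤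
      |((T.filter G).card : ℝ) - c * (T.card : ℝ)| + ((S \ T).card : ℝ) := by
  have e1 : ((S.filter G).card : ℝ) = (T.filter G).card + ((S \ T).filter G).card := by
    rw [← Nat.cast_add, ← card_union_of_disjoint, ← filter_union, union_sdiff_of_subset hTS]
    exact disjoint_filter_filter (disjoint_sdiff)
  have e2 : (S.card : ℝ) = T.card + (S \ T).card := by
    rw [← Nat.cast_add, ← card_union_of_disjoint disjoint_sdiff, union_sdiff_of_subset hTS]
  have h1 : |(((S \ T).filter G).card : ℝ) - c * ((S \ T).card : ℝ)| ≤ ((S \ T).card : ℝ) := by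
    have h2 : (((S \ T).filter G).card : ℝ) ≤ ((S \ T).card : ℝ) := by
      exact_mod_cast card_filter_le _ _
    have h3 : (0 : ℝ) ≤ ((S \ T).card : ℝ) := Nat.cast_nonneg _
    exact abs_sub_le_of (Nat.cast_nonneg _) h2 (mul_nonneg hc0 h3)
      (mul_le_of_le_one_left h3 hc1)
  have e3 : ((S.filter G).card : ℝ) - c * (S.card : ℝ) =
      (((T.filter G).card : ℝ) - c * (T.card : ℝ)) +
      ((((S \ T).filter G).card : ℝ) - c * ((S \ T).card : ℝ)) := by
    rw [e1, e2]; ring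
  rw [e3]
  exact (abs_add_le _ _).trans (add_le_add le_rfl h1)

/-- the error for one `M` -/
theorem perM (hc3 : S_C3) {X Y : ℕ} (hYX : Y ≤ X) {M : Finset ℕ} {z H K V : ℕ} (hH : 1 ≤ H) {E : ℝ}
    (hE : |(((RRW M Y z H K V).filter fun S => Nd (sm z S) (la z S) ∧ GdW M S).card : ℝ) -
      c3 * (((RRW M Y z H K V).filter fun S => Nd (sm z S) (la z S)).card : ℝ)| ≤
      2 * (1 / 3 : ℝ) ^ V * ((RRW M Y z H K V).card : ℝ) + E) :
    |(((SW M Y).filter (GdW M)).card : ℝ) - c3 * ((SW M Y).card : ℝ)| ≤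
      2 * (1 / 3 : ℝ) ^ V * ((SW M Y).card : ℝ) + ((((((((SG X).filter fun S => K < S.card).card : ℝ) +
        ((X : ℝ) * K / H + 1)) +
        (((SG X).filter fun S => ¬ Set.InjOn (jj H) (la z S : Set ℕ)).card : ℝ)) +
        (((SG X).filter fun S => ((la z S).filter fun p => p % 3 = 1).card ≤
          (sm z S).card + V).card : ℝ)) +
        (((SG X).filter fun S => S.card ≤ K ∧ ¬ Nd (sm z S) (la z S)).card : ℝ)) + E) := by
  set T := (RRW M Y z H K V).filter fun S => Nd (sm z S) (la z S) with hT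
  have hTG : (RRW M Y z H K V).filter (fun S => Nd (sm z S) (la z S) ∧ GdW M S) =
      T.filter (GdW M) := by
    rw [hT, filter_filter]
  rw [hTG] at hE
  have hTS : T ⊆ SW M Y := (filter_subset _ _).trans (filter_subset _ _)
  have hRS : ((RRW M Y z H K V).card : ℝ) ≤ ((SW M Y).card : ℝ) := by
    exact_mod_cast card_le_card (filter_subset _ _)
  have hcmp := cmp (GdW M) T (SW M Y) hTS c3 hc3.2.1.le hc3.2.2.1.le
  have hcut : (((SG Y).filter fun S => S.card ≤ K ∧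
        Y < (∏ p ∈ sm z S, p) * ∏ p ∈ la z S, XX H (jj H p)).card : ℝ) ≤ (X : ℝ) * K / H + 1 := by
    refine (Cnt.cut_count (X := Y) (z := z) (H := H) (K := K) hH).trans ?_
    have : (Y : ℝ) ≤ X := by exact_mod_cast hYX
    gcongr
  have hout : ((SW M Y \ T).card : ℝ) ≤
      ((((SG X).filter fun S => K < S.card).card : ℝ) +
      (((SG Y).filter fun S => S.card ≤ K ∧
        Y < (∏ p ∈ sm z S, p) * ∏ p ∈ la z S, XX H (jj H p)).card : ℝ) +
      (((SG X).filter fun S => ¬ Set.InjOn (jj H) (la z S : Set ℕ)).card : ℝ) +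
      (((SG X).filter fun S => ((la z S).filter fun p => p % 3 = 1).card ≤
        (sm z S).card + V).card : ℝ)) +
      (((SG X).filter fun S => S.card ≤ K ∧ ¬ Nd (sm z S) (la z S)).card : ℝ) := by
    have g := card_le_card (out_sub hYX M z H K V)
    rw [← hT] at g
    have g2 := (g.trans (card_union_le _ _)).trans (Nat.add_le_add_right ((card_union_le _ _).trans
      (Nat.add_le_add_right ((card_union_le _ _).trans
      (Nat.add_le_add_right (card_union_le _ _) _)) _)) _)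
    exact_mod_cast g2
  have g1 : 2 * (1 / 3 : ℝ) ^ V * ((RRW M Y z H K V).card : ℝ) ≤
      2 * (1 / 3 : ℝ) ^ V * ((SW M Y).card : ℝ) := mul_le_mul_of_nonneg_left hRS (by positivity)
  linarith

theorem sw_ff {M : Finset ℕ} (hM : ∀ p ∈ M, p.Prime) (X : ℕ) :
    (SW M (X / ∏ p ∈ M, p)).card ≤ (FF (X / (∏ p ∈ M, p) ^ 2)).card := by
  have hpos := prod_primes_pos hM
  refine card_le_card_of_injOn (fun S => S \ M) ?_ ?_
  · intro S hS
    rw [mem_coe, mem_SW] at hS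
    obtain ⟨⟨⟨h1, h2⟩, h3, -⟩, h4⟩ := hS
    rw [mem_coe, mem_FF]
    refine ⟨fun p hp => h1 p (mem_sdiff.1 hp).1, ?_, ?_⟩
    · exact (card_le_card (filter_subset_filter _ sdiff_subset)).trans h2.le
    · rw [sq, ← Nat.div_div_eq_div_mul, Nat.le_div_iff_mul_le hpos, prod_sdiff h3]
      exact h4
  · intro S hS T hT h
    rw [mem_coe, mem_SW] at hS hT
    have h' : S \ M = T \ M := h
    rw [← sdiff_union_of_subset hS.1.2.1, h', sdiff_union_of_subset hT.1.2.1]

theorem prod_inj {S T : Finset ℕ} (hS : ∀ p ∈ S, p.Prime) (hT : ∀ p ∈ T, p.Prime)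
    (h : ∏ p ∈ S, p = ∏ p ∈ T, p) : S = T := by
  rw [← Nat.primeFactors_prod hS, ← Nat.primeFactors_prod hT, h]

/-- the number of small `M` -/
theorem card_small (X B : ℕ) : ((MM X).filter fun M => (∏ p ∈ M, p) ≤ B).card ≤ B + 1 := by
  have h1 : (range (B + 1)).card = B + 1 := card_range _
  refine le_trans ?_ h1.le
  refine card_le_card_of_injOn (fun M => ∏ p ∈ M, p) ?_ ?_
  · intro M hM
    rw [mem_coe, mem_filter] at hM
    rw [mem_coe, mem_range]
    exact Nat.lt_succ_of_le hM.2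
  · intro S hS T hT h
    rw [mem_coe, mem_filter, mem_MM] at hS hT
    exact prod_inj hS.1.1 hT.1.1 h

/-- the sum over the large `M` -/
theorem sum_large (X B : ℕ) : ∑ M ∈ (MM X).filter (fun M => ¬ (∏ p ∈ M, p) ≤ B),
    ((FF (X / (∏ p ∈ M, p) ^ 2)).card : ℝ) ≤ ∑ b ∈ Ioc B X, ((FF (X / b ^ 2)).card : ℝ) := by
  rw [← sum_image (f := fun b : ℕ => ((FF (X / b ^ 2)).card : ℝ)) (g := fun M => ∏ p ∈ M, p)]
  · refine sum_le_sum_of_subset_of_nonneg ?_ fun _ _ _ => Nat.cast_nonneg _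
    intro b hb
    obtain ⟨M, hM, rfl⟩ := mem_image.1 hb
    rw [mem_filter, mem_MM] at hM
    rw [mem_Ioc]
    exact ⟨not_le.1 hM.2, hM.1.2⟩
  · intro S hS T hT h
    rw [mem_coe, mem_filter, mem_MM] at hS hT
    exact prod_inj hS.1.1 hT.1.1 h

theorem ss_le {X : ℕ} (hX : 1 ≤ X) : (SS X).card ≤ ∑ M ∈ MM X, (SW M (X / ∏ p ∈ M, p)).card := by
  have h1 : (∅ : Finset ℕ) ∈ MM X := by
    rw [mem_MM]
    simpa using hX
  refine le_trans ?_ (single_le_sum (f := fun M => (SW M (X / ∏ p ∈ M, p)).card)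
    (fun _ _ => Nat.zero_le _) h1)
  apply card_le_card
  intro S hS
  unfold SS at hS
  rw [mem_filter] at hS
  obtain ⟨-, ⟨h2, h3, h4, h5⟩, h6⟩ := hS
  rw [mem_SW]
  unfold ClW ClG
  simp only [prod_empty, mul_one, Nat.div_one]
  exact ⟨⟨⟨h2, h3⟩, empty_subset _, h4, h5⟩, h6⟩

/-- the error for one `M` -/
noncomputable def ER (V : ℕ) (C : ℝ) (X : ℕ) : ℝ :=
  ((((((((SG X).filter fun S => kk X < S.card).card : ℝ) + ((X : ℝ) * kk X / HH X + 1)) +
        (((SG X).filter fun S => ¬ Set.InjOn (jj (HH X)) (la (zz X) S : Set ℕ)).card : ℝ)) +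
        (((SG X).filter fun S => ((la (zz X) S).filter fun p => p % 3 = 1).card ≤
          (sm (zz X) S).card + V).card : ℝ)) +
        (((SG X).filter fun S => S.card ≤ kk X ∧ ¬ Nd (sm (zz X) S) (la (zz X) S)).card : ℝ)) +
    (9 * (NN X : ℝ) + 9) ^ kk X * (3 ^ (3 * kk X ^ 2) * kap C X) * (X * (1 + Real.log X)))

theorem er_sma (hL : LamP) (hS : S_SIE) (hH : S_HAL) (V : ℕ) {C : ℝ} (hC : 1 ≤ C) :
    SmA (ER V C) := by
  obtain ⟨CB, XB, hbad⟩ := Bad.bad hL hS hH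
  obtain ⟨CF, XF, hfew⟩ := Few.few hS V
  exact sma_add (sma_add (sma_add (sma_add (sma_add sma_many sma_cut) sma_coll) (sma_rpow hfew))
    (sma_rpow hbad)) (sma_main hC)

/-- the condition on the constant of the theorem on the sum over the boxes -/
def Key (C : ℝ) : Prop :=
  ∀ (M : Finset ℕ) (X z H K V N : ℕ) (κ : ℝ), (∀ q ∈ M, q ≤ z) → 1 ≤ H → 1 ≤ z → 0 ≤ κ →
  C ≤ κ ^ 12 * z → (H : ℝ) * Real.log X < N →
  |(((RRW M X z H K V).filter fun S => Nd (sm z S) (la z S) ∧ GdW M S).card : ℝ) -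
      c3 * (((RRW M X z H K V).filter fun S => Nd (sm z S) (la z S)).card : ℝ)| ≤
    2 * (1 / 3 : ℝ) ^ V * ((RRW M X z H K V).card : ℝ) +
    (9 * N + 9 : ℝ) ^ K * (3 ^ (3 * K ^ 2) * κ) * (X * (1 + Real.log X))

/-- the bound of the small primes -/
theorem bb_zz {X : ℕ} (hl : 242 ≤ eL X) : BB X ≤ zz X := by
  have hl1 : 1 ≤ eL X := by linarith
  have e1 : ((BB X : ℕ) : ℝ) ≤ 121 * eL X ^ 2 := by
    unfold BB
    push_cast
    have := pow_le_pow_left₀ (Nat.cast_nonneg _) (kk_le hl1) 2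
    linarith
  have e2 : (1 + eL X ^ 3) / 2 ≤ (zz X : ℝ) := by
    have := zz_ge hl1
    have h5 := Real.add_one_le_exp ((eL X) ^ 3)
    linarith
  have e3 : 242 * eL X ^ 2 ≤ eL X ^ 3 := by
    have : eL X ^ 3 = eL X * eL X ^ 2 := by ring
    rw [this]
    exact mul_le_mul_of_nonneg_right hl (sq_nonneg _)
  have e4 : ((BB X : ℕ) : ℝ) ≤ ((zz X : ℕ) : ℝ) := by linarith
  exact_mod_cast e4

theorem small_M (hc3 : S_C3) {C : ℝ} (hC1 : 1 ≤ C) (hkey : Key C) (V : ℕ) {X : ℕ}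
    (hl : 242 ≤ eL X) {M : Finset ℕ} (k1 : ∀ p ∈ M, p.Prime) (k3 : ∏ p ∈ M, p ≤ BB X) :
      |(((SW M (X / ∏ p ∈ M, p)).filter (GdW M)).card : ℝ) -
        c3 * ((SW M (X / ∏ p ∈ M, p)).card : ℝ)| ≤
      2 * (1 / 3 : ℝ) ^ V * ((SW M (X / ∏ p ∈ M, p)).card : ℝ) + ER V C X := by
  have hl1 : 1 ≤ eL X := by linarith
  have hl0 : 0 < eL X := by linarith
  have hlogX0 : 0 ≤ Real.log (X : ℝ) := Real.log_natCast_nonneg X
  have hN : (HH X : ℝ) * Real.log X < NN X := by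
    unfold NN
    push_cast
    exact Nat.lt_floor_add_one _
  have hMz : ∀ q ∈ M, q ≤ zz X := by
    intro q hq
    have := Nat.le_of_dvd (prod_primes_pos k1) (Finset.dvd_prod_of_mem (fun p => p) hq)
    exact (this.trans k3).trans (bb_zz hl)
  generalize hY : X / ∏ p ∈ M, p = Y
  have hYX : Y ≤ X := by
    rw [← hY]
    exact Nat.div_le_self _ _
  have hYX' : (Y : ℝ) ≤ X := by exact_mod_cast hYX
  have hlYX : Real.log (Y : ℝ) ≤ Real.log X := by
    rcases Nat.eq_zero_or_pos Y with h0 | h0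
    · rw [h0, Nat.cast_zero, Real.log_zero]
      exact hlogX0
    · exact Real.log_le_log (by exact_mod_cast h0) hYX'
  have hNY : (HH X : ℝ) * Real.log Y < NN X :=
    lt_of_le_of_lt (mul_le_mul_of_nonneg_left hlYX (Nat.cast_nonneg _)) hN
  have hmain := hkey M Y (zz X) (HH X) (kk X) V (NN X) (kap C X) hMz (HH_pos hl0) (zz_pos hl1)
    (kap_nonneg hC1 X) (kap_pow hC1 hl1) hNY
  have hlast : (9 * (NN X : ℝ) + 9) ^ kk X * (3 ^ (3 * kk X ^ 2) * kap C X) *
      ((Y : ℝ) * (1 + Real.log Y)) ≤ (9 * (NN X : ℝ) + 9) ^ kk X *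
      (3 ^ (3 * kk X ^ 2) * kap C X) * ((X : ℝ) * (1 + Real.log X)) := by
    have k4 := kap_nonneg hC1 X
    have k5 : 0 ≤ Real.log (Y : ℝ) := Real.log_natCast_nonneg Y
    have k6 : (Y : ℝ) * (1 + Real.log Y) ≤ X * (1 + Real.log X) :=
      mul_le_mul hYX' (by linarith) (by linarith) (Nat.cast_nonneg _)
    exact mul_le_mul_of_nonneg_left k6 (by positivity)
  have hp := perM hc3 hYX (HH_pos hl0) (hmain.trans (add_le_add le_rfl hlast))
  exact hp

theorem large_M (hc3 : S_C3) (X : ℕ) {M : Finset ℕ} (k1 : ∀ p ∈ M, p.Prime) :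
      |(((SW M (X / ∏ p ∈ M, p)).filter (GdW M)).card : ℝ) -
        c3 * ((SW M (X / ∏ p ∈ M, p)).card : ℝ)| ≤
      ((FF (X / (∏ p ∈ M, p) ^ 2)).card : ℝ) := by
  have k4 : ((SW M (X / ∏ p ∈ M, p)).card : ℝ) ≤ ((FF (X / (∏ p ∈ M, p) ^ 2)).card : ℝ) := by
    exact_mod_cast sw_ff k1 X
  refine le_trans ?_ k4
  have k2 : (((SW M (X / ∏ p ∈ M, p)).filter (GdW M)).card : ℝ) ≤
      ((SW M (X / ∏ p ∈ M, p)).card : ℝ) := by
    exact_mod_cast card_filter_le _ _
  have k3 : (0 : ℝ) ≤ ((SW M (X / ∏ p ∈ M, p)).card : ℝ) := Nat.cast_nonneg _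
  exact abs_sub_le_of (Nat.cast_nonneg _) k2 (mul_nonneg hc3.2.1.le k3)
    (mul_le_of_le_one_left k3 hc3.2.2.1.le)

/-- a sum over `M` -/
theorem sum_M (X B : ℕ) (G N : Finset ℕ → ℕ) (F : Finset ℕ → ℝ) (c v E T : ℝ) (hv : 0 ≤ v)
    (hE : 0 ≤ E)
    (h1 : ∀ M ∈ MM X, ∏ p ∈ M, p ≤ B → |(G M : ℝ) - c * N M| ≤ v * N M + E)
    (h2 : ∀ M ∈ MM X, |(G M : ℝ) - c * N M| ≤ F M)
    (h3 : ∑ M ∈ (MM X).filter (fun M => ¬ (∏ p ∈ M, p) ≤ B), F M ≤ T) :
    |((∑ M ∈ MM X, G M : ℕ) : ℝ) - c * ((∑ M ∈ MM X, N M : ℕ) : ℝ)| ≤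
      v * ((∑ M ∈ MM X, N M : ℕ) : ℝ) + ((B : ℝ) + 1) * E + T := by
  have k1 : ((∑ M ∈ MM X, G M : ℕ) : ℝ) - c * ((∑ M ∈ MM X, N M : ℕ) : ℝ) =
      ∑ M ∈ MM X, ((G M : ℝ) - c * N M) := by
    rw [sum_sub_distrib, ← mul_sum]
    push_cast
    rfl
  rw [k1]
  refine (abs_sum_le_sum_abs _ _).trans ?_
  rw [← sum_filter_add_sum_filter_not (MM X) (fun M => (∏ p ∈ M, p) ≤ B)]
  have k2 : ∑ M ∈ (MM X).filter (fun M => ¬ (∏ p ∈ M, p) ≤ B), |(G M : ℝ) - c * N M| ≤ T :=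
    (sum_le_sum fun M hM => h2 M (mem_filter.1 hM).1).trans h3
  have k3 : ∑ M ∈ (MM X).filter (fun M => (∏ p ∈ M, p) ≤ B), |(G M : ℝ) - c * N M| ≤
      ∑ M ∈ (MM X).filter (fun M => (∏ p ∈ M, p) ≤ B), (v * (N M : ℝ) + E) :=
    sum_le_sum fun M hM => h1 M (mem_filter.1 hM).1 (mem_filter.1 hM).2
  rw [sum_add_distrib, ← mul_sum, sum_const, nsmul_eq_mul] at k3
  have k4 : ∑ M ∈ (MM X).filter (fun M => (∏ p ∈ M, p) ≤ B), (N M : ℝ) ≤
      ((∑ M ∈ MM X, N M : ℕ) : ℝ) := by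
    push_cast
    exact sum_le_sum_of_subset_of_nonneg (filter_subset _ _) fun _ _ _ => Nat.cast_nonneg _
  have k5 := mul_le_mul_of_nonneg_left k4 hv
  have k6 : ((((MM X).filter fun M => (∏ p ∈ M, p) ≤ B).card : ℕ) : ℝ) * E ≤
      ((B : ℝ) + 1) * E := by
    have : ((((MM X).filter fun M => (∏ p ∈ M, p) ≤ B).card : ℕ) : ℝ) ≤ ((B : ℝ) + 1) := by
      exact_mod_cast card_small X B
    exact mul_le_mul_of_nonneg_right this hE
  linarith

/-- the last step -/
theorem last {G N c c₀ ε v Q R : ℝ} (hε : 0 < ε) (hv : v < ε / 4) (hQ : c * Q ≤ N) (hN : 0 < N)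
    (h : |G - c₀ * N| ≤ 2 * v * N + R) (hR : R ≤ c * ε / 4 * Q) : |G / N - c₀| < ε := by
  have e3 : G / N - c₀ = (G - c₀ * N) / N := by
    rw [sub_div, mul_div_assoc, div_self hN.ne', mul_one]
  rw [e3, abs_div, abs_of_pos hN, div_lt_iff₀ hN]
  have g2 : c * ε / 4 * Q ≤ ε / 4 * N := by
    calc c * ε / 4 * Q = ε / 4 * (c * Q) := by ring
      _ ≤ _ := mul_le_mul_of_nonneg_left hQ (by linarith)
  have g3 : 2 * v * N < 2 * (ε / 4) * N := by
    apply mul_lt_mul_of_pos_right _ hN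
    linarith
  have g4 : 0 < ε * N := by positivity
  linarith

/-- the sum of the errors -/
theorem sml_B {CE : ℝ} (hCE : 0 ≤ CE) :
    Sml fun X => (((BB X : ℕ) : ℝ) + 1) * (CE * (X * Real.exp (-(3 / 5) * eL X))) := by
  apply sml_of (C := 2 * CE) (a := 29 / 50) (by norm_num)
  filter_upwards [ev_eL 1, lin_le (a := 1 / 100) (b := 11) (by norm_num) (by norm_num)] with X hl h11
  have hkk := kk_le hl
  have hkk0 : (0 : ℝ) ≤ kk X := Nat.cast_nonneg _
  have e1 : ((BB X : ℕ) : ℝ) ≤ Real.exp (1 / 50 * eL X) := by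
    unfold BB
    push_cast
    have e2 : Real.exp (1 / 50 * eL X) = Real.exp (1 / 100 * eL X) ^ 2 := by
      rw [← Real.exp_nat_mul]
      congr 1
      push_cast
      ring
    rw [e2]
    exact pow_le_pow_left₀ hkk0 (hkk.trans h11) 2
  have e3 : (1 : ℝ) ≤ Real.exp (1 / 50 * eL X) := one_le_exp (by linarith)
  have e4 : Real.exp (-(29 / 50) * eL X) = Real.exp (1 / 50 * eL X) * Real.exp (-(3 / 5) * eL X) := by
    rw [← Real.exp_add]
    congr 1
    ring
  rw [e4]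
  calc (((BB X : ℕ) : ℝ) + 1) * (CE * (X * Real.exp (-(3 / 5) * eL X))) ≤
      (2 * Real.exp (1 / 50 * eL X)) * (CE * (X * Real.exp (-(3 / 5) * eL X))) := by
        apply mul_le_mul_of_nonneg_right (by linarith) (by positivity)
    _ = _ := by ring

theorem t_CF (hL : LamP) (h1 : S_BIL1) (h2 : S_BIL2) (h3 : S_EQ) (h4 : S_LA)
    (hS : S_SIE) (hH : S_HAL) (hM : S_MER)
    (hCh : S_CHE) (hLo : S_LOW) (hc3 : S_C3) : Tendsto
  (fun X : ℕ => (((Icc 1 X).filter fun D => Cls D ∧ NoSplit D).card : ℝ) /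
    (((Icc 1 X).filter fun D => Cls D).card : ℝ)) atTop (nhds c3) := by
  obtain ⟨C, hC1, hkey⟩ := t_KEYW hL h1 h2 h3 h4
  have hkey' : Key C := hkey
  obtain ⟨c, X₀, hc, hlow⟩ := hLo hM hCh
  rw [Metric.tendsto_nhds]
  intro ε hε
  obtain ⟨V, hV⟩ := exists_pow_lt_of_lt_one (show (0 : ℝ) < ε / 4 by linarith)
    (show (1 / 3 : ℝ) < 1 by norm_num)
  obtain ⟨CE, hCE, hEE⟩ := er_sma hL hS hH V hC1
  have s := sml_add (sml_B hCE) (tail hS)
  have hδ : (0 : ℝ) < c * ε / 4 := by positivity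
  filter_upwards [s (c * ε / 4) hδ, hEE, ev_eL 242, eventually_ge_atTop X₀] with X hX hEX hl hX0
  have hl0 : 0 < eL X := by linarith
  have hlo := hlow X hX0
  rw [rpow_eL hl0] at hlo
  have hXp := X_pos hl0
  have hXp' : (0 : ℝ) < X := by exact_mod_cast hXp
  have e0 : (-(1 / 2) * eL X : ℝ) = -(eL X) / 2 := by ring
  rw [e0] at hlo
  have hSS : ((SS X).card : ℝ) ≤ ((∑ M ∈ MM X, (SW M (X / ∏ p ∈ M, p)).card : ℕ) : ℝ) := by
    exact_mod_cast ss_le hXp
  have hpos : (0 : ℝ) < c * X * Real.exp (-(eL X) / 2) := by positivity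
  have htot := sum_M X (BB X) (fun M => ((SW M (X / ∏ p ∈ M, p)).filter (GdW M)).card)
    (fun M => (SW M (X / ∏ p ∈ M, p)).card) (fun M => ((FF (X / (∏ p ∈ M, p) ^ 2)).card : ℝ))
    c3 (2 * (1 / 3 : ℝ) ^ V) (CE * (X * Real.exp (-(3 / 5) * eL X)))
    (∑ b ∈ Ioc (BB X) X, ((FF (X / b ^ 2)).card : ℝ)) (by positivity) (by positivity)
    (fun M hM k => (small_M hc3 hC1 hkey' V hl (mem_MM.1 hM).1 k).trans (add_le_add le_rfl hEX))
    (fun M hM => large_M hc3 X (mem_MM.1 hM).1) (sum_large X (BB X))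
  rw [cnt hL X, cnt1 X, Real.dist_eq]
  refine last (c := c) (Q := X * Real.exp (-(eL X) / 2)) (v := (1 / 3 : ℝ) ^ V) hε hV ?_
    (hpos.trans_le (hlo.trans hSS)) ?_ hX
  · rw [← mul_assoc]
    exact hlo.trans hSS
  · refine htot.trans (le_of_eq ?_)
    ring

end Pool.Agent.R419.CF.Asy
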