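import Pool.Agent.R419.CF.Defs
import Pool.Agent.Y911.CX.BOX

/-! Project CF: the count in a box, with weights. -/

set_option autoImplicit false

open scoped Classical

namespace Pool.Agent.R419.CF

open Finset
open Pool.Agent.Y703.CX
open Pool.Agent.Y911.CX
open Pool.Agent.Y699.E (ez)

theorem wt_one {M : Finset ℕ} {q : ℕ} (h : q ∉ M) : wt M q = 1 := by
  unfold wt
  rw [if_neg h]

theorem wt_ne (M : Finset ℕ) (q : ℕ) : wt M q ≠ 0 := by
  unfold wt
  split_ifs
  · decide
  · decide

section one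
variable {ι : Type} [Fintype ι] {J1 : Finset ι} {M S₀ : Finset ℕ} {p : ι → ℕ}

theorem gdw_iff (hM : M ⊆ S₀) (hp : Function.Injective p) (hd : ∀ i, p i ∉ S₀) (hne : J1.Nonempty)
    (hJ : ∀ i, p i % 3 = 1 ↔ i ∈ J1) :
    GdW M (S₀ ∪ univ.image p) ↔ GdA (univ.filter fun u : S₀ => (u : ℕ) % 3 = 1) J1
      (fun u v : S₀ => wt M v * lam u v) (fun (u : S₀) l => lam u (p l))
      (fun k (u : S₀) => wt M u * lam (p k) u)
      (Pool.Agent.Y703.CX.ext fun e : prs J1 => lam (p e.1.1) (p e.1.2)) := by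
  have hw : ∀ i, wt M (p i) = 1 := fun i => wt_one fun h => hd i (hM h)
  obtain ⟨k₀, hk₀⟩ := hne
  have hsol : ∀ c : ℕ → ZMod 3, SolW M (S₀ ∪ univ.image p) c ↔
      (∀ u : S₀, (u : ℕ) % 3 = 1 → ∑ v : S₀, (c v - c u) * (wt M v * lam u v) +
        ∑ l, (c (p l) - c u) * lam u (p l) = 0) ∧
      (∀ k ∈ J1, ∑ u : S₀, (c u - c (p k)) * (wt M u * lam (p k) u) +
        ∑ l, (c (p l) - c (p k)) * Pool.Agent.Y703.CX.ext (fun e : prs J1 => lam (p e.1.1) (p e.1.2)) k l = 0) := by
    intro c
    unfold SolW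
    constructor
    · intro h
      refine ⟨fun u hu => ?_, fun k hk => ?_⟩
      · have := h u (Finset.mem_union_left _ u.2) hu
        rw [sum_un hp hd] at this
        simp only [hw, one_mul] at this
        exact this
      · have := h (p k) (Finset.mem_union_right _ (Finset.mem_image_of_mem _ (Finset.mem_univ _)))
          ((hJ k).2 hk)
        rw [sum_un hp hd] at this
        simp only [hw, one_mul] at this
        rw [ext_sum hp k hk (fun l => c (p l))]
        exact this
    · rintro ⟨h1, h2⟩ x hx hx1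
      rw [sum_un hp hd]
      simp only [hw, one_mul]
      rw [Finset.mem_union, Finset.mem_image] at hx
      rcases hx with hx | ⟨k, -, rfl⟩
      · exact h1 ⟨x, hx⟩ hx1
      · have hk := (hJ k).1 hx1
        have := h2 k hk
        rw [ext_sum hp k hk (fun l => c (p l))] at this
        exact this
  unfold GdW GdA
  constructor
  · intro h c d h1 h2
    set c' : ℕ → ZMod 3 := fun n => if h : n ∈ S₀ then c ⟨n, h⟩ else
      if h : ∃ l, p l = n then d h.choose else 0 with hc'
    have e1 : ∀ u : S₀, c' u = c u := by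
      intro u
      simp only [hc']
      rw [dif_pos u.2]
    have e2 : ∀ l, c' (p l) = d l := by
      intro l
      have hex : ∃ l', p l' = p l := ⟨l, rfl⟩
      simp only [hc']
      rw [dif_neg (hd l), dif_pos hex]
      exact congrArg d (hp hex.choose_spec)
    have hs : SolW M (S₀ ∪ univ.image p) c' := by
      rw [hsol]
      refine ⟨fun u hu => ?_, fun k hk => ?_⟩
      · simp only [e1, e2]
        exact h1 u (Finset.mem_filter.2 ⟨Finset.mem_univ _, hu⟩)
      · simp only [e1, e2]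
        exact h2 k hk
    have h3 := h c' hs
    have hk₀' : p k₀ ∈ S₀ ∪ univ.image p :=
      Finset.mem_union_right _ (Finset.mem_image_of_mem _ (Finset.mem_univ _))
    refine ⟨d k₀, fun u => ?_, fun l => ?_⟩
    · rw [← e1, ← e2]
      exact h3 _ (Finset.mem_union_left _ u.2) _ hk₀'
    · rw [← e2, ← e2 k₀]
      exact h3 _ (Finset.mem_union_right _ (Finset.mem_image_of_mem _ (Finset.mem_univ _))) _ hk₀'
  · intro h c hc
    rw [hsol] at hc
    obtain ⟨t, ht1, ht2⟩ := h (fun u => c u) (fun l => c (p l))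
      (fun u hu => hc.1 u (Finset.mem_filter.1 hu).2) (fun k hk => hc.2 k hk)
    have h4 : ∀ x ∈ S₀ ∪ univ.image p, c x = t := by
      intro x hx
      rw [Finset.mem_union, Finset.mem_image] at hx
      rcases hx with hx | ⟨k, -, rfl⟩
      · exact ht1 ⟨x, hx⟩
      · exact ht2 k
    intro x hx y hy
    rw [h4 x hx, h4 y hy]

end one

/-- **The count in a box.** -/
theorem t_BOXW (hEQ : S_EQ) (hLA : S_LA) (ι : Type) [Fintype ι] (J1 : Finset ι)
    (C : ι → Finset ℕ) (X : ι → ℕ) (κ : ℝ) (M S₀ : Finset ℕ) (hM : M ⊆ S₀) (hκ : 0 ≤ κ)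
    (hCX : ∀ i, (C i).card ≤ X i)
    (hHB : HB J1 C X κ) (hS₀ : ∀ u ∈ S₀, u.Prime ∧ u ≠ 3)
    (hC : ∀ i, ∀ p ∈ C i, p.Prime ∧ p ∉ S₀ ∧ (i ∈ J1 → p % 3 = 1) ∧ (i ∉ J1 → p % 3 = 2))
    (hdis : ∀ i l, i ≠ l → Disjoint (C i) (C l)) (hne : J1.Nonempty)
    (hcard : (S₀.filter fun p => p % 3 = 2).card + (univ \ J1).card = 1) :
    |(((Fintype.piFinset C).filter fun p => Nd S₀ (univ.image p) ∧
        GdW M (S₀ ∪ univ.image p)).card : ℝ) -
      c3 * (((Fintype.piFinset C).filter fun p => Nd S₀ (univ.image p)).card : ℝ)| ≤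
    2 * (3 ^ S₀.card / 3 ^ J1.card) *
      (((Fintype.piFinset C).filter fun p => Nd S₀ (univ.image p)).card : ℝ) +
    3 ^ (2 * S₀.card * Fintype.card ι + (prs J1).card) * (κ * ∏ j, (X j : ℝ)) := by
  set cc : ℝ := 2 * (3 ^ S₀.card / 3 ^ J1.card) with hcc
  set R : ℝ := 3 ^ (prs J1).card * (κ * ∏ j, (X j : ℝ)) with hR
  have hcc0 : 0 ≤ cc := by positivity
  have hR0 : 0 ≤ R := mul_nonneg (by positivity)
    (mul_nonneg hκ (Finset.prod_nonneg fun j _ => by positivity))
  -- facts on tuples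
  have hinj : ∀ p ∈ Fintype.piFinset C, Function.Injective p := by
    intro p hp i j hij
    rw [Fintype.mem_piFinset] at hp
    by_contra hne
    have h1 := Finset.disjoint_left.1 (hdis i j hne) (hp i)
    rw [hij] at h1
    exact h1 (hp j)
  have hJ : ∀ p ∈ Fintype.piFinset C, ∀ i, p i % 3 = 1 ↔ i ∈ J1 := by
    intro p hp i
    rw [Fintype.mem_piFinset] at hp
    obtain ⟨-, -, h1, h2⟩ := hC i _ (hp i)
    constructor
    · intro h
      by_contra h3
      have := h2 h3
      omega
    · exact h1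
  have hd : ∀ p ∈ Fintype.piFinset C, ∀ i, p i ∉ S₀ := by
    intro p hp i
    rw [Fintype.mem_piFinset] at hp
    exact (hC i _ (hp i)).2.1
  -- the exceptional index
  obtain ⟨ks, hks⟩ : ∃ ks : ι, ∀ l, l ∉ J1 → l = ks := by
    by_cases h : ∃ l, l ∉ J1
    · obtain ⟨l, hl⟩ := h
      refine ⟨l, fun l' hl' => ?_⟩
      have h1 : (univ \ J1).card ≤ 1 := by omega
      rw [Finset.card_le_one] at h1
      exact h1 l' (Finset.mem_sdiff.2 ⟨Finset.mem_univ _, hl'⟩) l
        (Finset.mem_sdiff.2 ⟨Finset.mem_univ _, hl⟩)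
    · push Not at h
      obtain ⟨k, -⟩ := hne
      exact ⟨k, fun l hl => absurd (h l) hl⟩
  have hcount : Fintype.card S₀ + Fintype.card ι =
      (univ.filter fun u : S₀ => (u : ℕ) % 3 = 1).card + J1.card + 1 := by
    have h1 : (univ \ J1).card + J1.card = Fintype.card ι := by
      rw [Finset.card_sdiff_add_card_eq_card (Finset.subset_univ _), Finset.card_univ]
    have h2 : (univ.filter fun u : S₀ => (u : ℕ) % 3 = 1).card =
        (S₀.filter fun p => p % 3 = 1).card := by
      rw [← Finset.card_map (Function.Embedding.subtype (· ∈ S₀))]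
      congr 1
      ext x
      simp only [Finset.mem_map, Finset.mem_filter, Finset.mem_univ, true_and,
        Function.Embedding.coe_subtype]
      constructor
      · rintro ⟨u, hu, rfl⟩
        exact ⟨u.2, hu⟩
      · rintro ⟨h, h'⟩
        exact ⟨⟨x, h⟩, h', rfl⟩
    have h3 : (S₀.filter fun p => p % 3 = 1).card + (S₀.filter fun p => p % 3 = 2).card =
        S₀.card := by
      rw [← Finset.card_filter_add_card_filter_not (s := S₀) (fun p => p % 3 = 1)]
      congr 2
      refine Finset.filter_congr fun x hx => ?_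
      have h4 := hS₀ x hx
      have h5 : x % 3 ≠ 0 := by
        intro h0
        have := (Nat.prime_dvd_prime_iff_eq Nat.prime_three h4.1).1 (Nat.dvd_of_mod_eq_zero h0)
        exact h4.2 this.symm
      omega
    rw [Fintype.card_coe, h2]
    omega
  -- the part with given labels
  have h1 : ∀ β : ι → (S₀ → ZMod 3) × (S₀ → ZMod 3), LN S₀ J1 β →
      |(((Fintype.piFinset C).filter fun p => (fun i => lb S₀ (p i)) = β ∧
          GdW M (S₀ ∪ univ.image p)).card : ℝ) -
        c3 * (((Fintype.piFinset C).filter fun p => (fun i => lb S₀ (p i)) = β).card : ℝ)| ≤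
      cc * (((Fintype.piFinset C).filter fun p => (fun i => lb S₀ (p i)) = β).card : ℝ) + R := by
    intro β hβ
    set C' : ι → Finset ℕ := fun i => (C i).filter fun q => lb S₀ q = β i with hC'
    have hpi : (Fintype.piFinset C).filter (fun p => (fun i => lb S₀ (p i)) = β) =
        Fintype.piFinset C' := by
      ext p
      simp only [Finset.mem_filter, Fintype.mem_piFinset, hC']
      constructor
      · rintro ⟨h2, h3⟩ i
        exact ⟨h2 i, congrFun h3 i⟩
      · intro h2
        exact ⟨fun i => (h2 i).1, funext fun i => (h2 i).2⟩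
    have h2 := hLA S₀ ι (univ.filter fun u : S₀ => (u : ℕ) % 3 = 1) J1 ks hcount hks
      (fun u v => wt M v * lam u v) (fun u l => (β l).1 u) (fun k u => wt M u * (β k).2 u)
      (by
        rintro v ⟨u, hu, hv⟩
        have h3 := hβ.1 v ⟨u, (Finset.mem_filter.1 hu).2, hv⟩
        obtain ⟨l, hl, hlk⟩ := Finset.exists_mem_ne (lt_of_lt_of_le one_lt_two h3) ks
        exact ⟨l, hlk, (Finset.mem_filter.1 hl).2⟩)
      (fun w hw => by
        obtain ⟨u, hu⟩ := hw
        obtain ⟨k, hk, hk2⟩ := hβ.2 (fun u => w u * wt M u) ⟨u, mul_ne_zero hu (wt_ne M u)⟩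
        refine ⟨k, hk, fun h0 => hk2 ?_⟩
        rw [← h0]
        exact Finset.sum_congr rfl fun u _ => mul_assoc _ _ _)
    set Q : (prs J1 → ZMod 3) → Prop := fun α => GdA (univ.filter fun u : S₀ => (u : ℕ) % 3 = 1)
      J1 (fun u v : S₀ => wt M v * lam u v) (fun (u : S₀) l => (β l).1 u)
      (fun k (u : S₀) => wt M u * (β k).2 u)
      (Pool.Agent.Y703.CX.ext α) with hQ
    have h3 := hEQ ι J1 C' X κ hκ
      (fun i => (Finset.card_le_card (Finset.filter_subset _ _)).trans (hCX i))
      (HB_sub hHB fun i q => lb S₀ q = β i) Q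
    have h4 : ((Fintype.piFinset C).filter fun p => (fun i => lb S₀ (p i)) = β ∧
        GdW M (S₀ ∪ univ.image p)) = ((Fintype.piFinset C').filter fun p =>
          Q fun e => lam (p e.1.1) (p e.1.2)) := by
      rw [← hpi, Finset.filter_filter]
      refine Finset.filter_congr fun p hp => ?_
      refine and_congr_right fun hl => ?_
      rw [gdw_iff hM (hinj p hp) (hd p hp) hne (hJ p hp)]
      subst hl
      exact Iff.rfl
    have h5 : (((Fintype.piFinset C').card : ℕ) : ℝ) = ∏ j, ((C' j).card : ℝ) := by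
      rw [Fintype.card_piFinset]
      push_cast
      rfl
    rw [h4, hpi, h5]
    rw [Fintype.card_coe] at h2
    set n : ℝ := (((Fintype.piFinset C').filter fun p =>
          Q fun e => lam (p e.1.1) (p e.1.2)).card : ℝ) with hn
    set q : ℝ := ((univ.filter Q).card : ℝ) / 3 ^ (prs J1).card with hq
    set P : ℝ := ∏ j, ((C' j).card : ℝ) with hP
    have hP0 : 0 ≤ P := Finset.prod_nonneg fun j _ => by positivity
    have h6 : |n - c3 * P| ≤ |n - q * P| + |q - c3| * P := by
      have h7 : n - c3 * P = (n - q * P) + (q - c3) * P := by ring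
      have h8 : |(q - c3) * P| = |q - c3| * P := by rw [abs_mul, abs_of_nonneg hP0]
      rw [h7, ← h8]
      exact abs_add_le _ _
    have h7 : |q - c3| * P ≤ cc * P := mul_le_mul_of_nonneg_right h2 hP0
    have h8 : |n - q * P| ≤ R := h3
    linarith
  -- sum over the labels
  set LL := univ.filter (fun β : ι → (S₀ → ZMod 3) × (S₀ → ZMod 3) => LN S₀ J1 β) with hLL
  have hfib : ∀ T : (ι → ℕ) → Prop,
      (((Fintype.piFinset C).filter fun p => Nd S₀ (univ.image p) ∧ T p).card : ℝ) =
      ∑ β ∈ LL, (((Fintype.piFinset C).filter fun p =>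
        (fun i => lb S₀ (p i)) = β ∧ T p).card : ℝ) := by
    intro T
    rw [Finset.card_eq_sum_card_fiberwise (f := fun (p : ι → ℕ) (i : ι) => lb S₀ (p i))
      (t := LL) (by
        intro p hp
        rw [Finset.mem_coe, Finset.mem_filter] at hp
        rw [Finset.mem_coe, hLL, Finset.mem_filter]
        exact ⟨Finset.mem_univ _, (nd_iff (hinj p hp.1) (hJ p hp.1)).1 hp.2.1⟩)]
    push_cast
    refine Finset.sum_congr rfl fun β hβ => ?_
    rw [hLL, Finset.mem_filter] at hβ
    congr 2
    ext p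
    simp only [Finset.mem_filter]
    constructor
    · rintro ⟨⟨h3, h4, h4'⟩, h5⟩
      exact ⟨h3, h5, h4'⟩
    · rintro ⟨h3, h4, h5⟩
      refine ⟨⟨h3, ?_, h5⟩, h4⟩
      rw [nd_iff (hinj p h3) (hJ p h3), h4]
      exact hβ.2
  have hf1 := hfib fun p => GdW M (S₀ ∪ univ.image p)
  have hf2 := hfib fun _ => True
  simp only [and_true] at hf2
  rw [hf1, hf2, Finset.mul_sum, ← Finset.sum_sub_distrib]
  refine (Finset.abs_sum_le_sum_abs _ _).trans ?_
  refine (Finset.sum_le_sum fun β hβ => h1 β (Finset.mem_filter.1 hβ).2).trans ?_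
  rw [Finset.sum_add_distrib, ← Finset.mul_sum, Finset.sum_const, nsmul_eq_mul]
  have h5 : ((LL.card : ℕ) : ℝ) ≤ 3 ^ (2 * S₀.card * Fintype.card ι) := by
    have h6 : LL.card ≤ Fintype.card (ι → (S₀ → ZMod 3) × (S₀ → ZMod 3)) :=
      Finset.card_le_univ _
    rw [Fintype.card_fun, Fintype.card_prod, Fintype.card_fun, ZMod.card, Fintype.card_coe,
      ← pow_add, ← two_mul, ← pow_mul] at h6
    exact_mod_cast h6
  have h6 := mul_le_mul_of_nonneg_right h5 hR0
  rw [pow_add, mul_assoc]
  linarith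

end Pool.Agent.R419.CF
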