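import Pool.Agent.Y703.CX.Stm

/-!
# Project CF (helper419): the exact proportion for all cube-free `D`

`D = a b²` runs over all cube-free numbers of the class `Cls` (prime to `3`, not `±1` modulo `9`, exactly
one prime factor `≡ 2` modulo `3`).  `S` is the set of the prime divisors of `D` and `M ⊆ S` the set of the
prime divisors of `b`.  This extends project CX of helper703 and others (squarefree `D`, `M = ∅`).
-/

set_option autoImplicit false

open scoped Classical

namespace Pool.Agent.R419.CF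

open Finset
open Pool.Agent.Y703.CX

/-- the exponent of a prime in `D`, modulo `3` -/
noncomputable def wt (M : Finset ℕ) (q : ℕ) : ZMod 3 := if q ∈ M then 2 else 1

/-- the solutions of the linear system attached to `D` -/
def SolW (M S : Finset ℕ) (c : ℕ → ZMod 3) : Prop :=
  ∀ p ∈ S, p % 3 = 1 → ∑ q ∈ S, (c q - c p) * (wt M q * lam p q) = 0

/-- all solutions are constant -/
def GdW (M S : Finset ℕ) : Prop := ∀ c, SolW M S c → ∀ p ∈ S, ∀ q ∈ S, c p = c q

/-- sets of primes different from `3`, one of which is `2` modulo `3` -/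
def ClG (S : Finset ℕ) : Prop :=
  (∀ p ∈ S, p.Prime ∧ p ≠ 3) ∧ (S.filter fun p => p % 3 = 2).card = 1

/-- the sets with product at most `X` -/
noncomputable def SG (X : ℕ) : Finset (Finset ℕ) :=
  (range (X + 1)).powerset.filter fun S => ClG S ∧ ∏ p ∈ S, p ≤ X

/-- the class for a given `M` -/
def ClW (M S : Finset ℕ) : Prop :=
  ClG S ∧ M ⊆ S ∧ ((∏ p ∈ S, p) * ∏ p ∈ M, p) % 9 ≠ 1 ∧ ((∏ p ∈ S, p) * ∏ p ∈ M, p) % 9 ≠ 8

/-- the sets of the class with product at most `X` -/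
noncomputable def SW (M : Finset ℕ) (X : ℕ) : Finset (Finset ℕ) :=
  (range (X + 1)).powerset.filter fun S => ClW M S ∧ ∏ p ∈ S, p ≤ X

theorem SW_sub (M : Finset ℕ) (X : ℕ) : SW M X ⊆ SG X := by
  intro S hS
  unfold SW at hS
  unfold SG
  rw [mem_filter] at hS ⊢
  exact ⟨hS.1, hS.2.1.1, hS.2.2⟩

theorem prod_primes_pos {S : Finset ℕ} (hS : ∀ q ∈ S, q.Prime) : 0 < ∏ p ∈ S, p :=
  Finset.prod_pos fun p hp => (hS p hp).pos

theorem mem_SG {X : ℕ} {S : Finset ℕ} : S ∈ SG X ↔ ClG S ∧ ∏ p ∈ S, p ≤ X := by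
  unfold SG
  rw [mem_filter, mem_powerset]
  constructor
  · exact fun h => h.2
  · intro h
    refine ⟨fun q hq => ?_, h⟩
    rw [mem_range]
    have h1 : q ∣ ∏ p ∈ S, p := Finset.dvd_prod_of_mem _ hq
    have h2 := Nat.le_of_dvd (prod_primes_pos fun p hp => (h.1.1 p hp).1) h1
    have := h.2
    omega

theorem mem_SW {M : Finset ℕ} {X : ℕ} {S : Finset ℕ} : S ∈ SW M X ↔ ClW M S ∧ ∏ p ∈ S, p ≤ X := by
  unfold SW
  rw [mem_filter, mem_powerset]
  constructor
  · exact fun h => h.2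
  · intro h
    refine ⟨fun q hq => ?_, h⟩
    rw [mem_range]
    have h1 : q ∣ ∏ p ∈ S, p := Finset.dvd_prod_of_mem _ hq
    have h2 := Nat.le_of_dvd (prod_primes_pos fun p hp => (h.1.1.1 p hp).1) h1
    have := h.2
    omega

theorem SG_mono {X Y : ℕ} (h : X ≤ Y) : SG X ⊆ SG Y := by
  intro S hS
  rw [mem_SG] at hS ⊢
  exact ⟨hS.1, hS.2.trans h⟩

theorem SS_sub_SG (X : ℕ) : SS X ⊆ SG X := by
  intro S hS
  unfold SS at hS
  rw [mem_filter] at hS
  rw [mem_SG]
  exact ⟨⟨hS.2.1.1, hS.2.1.2.1⟩, hS.2.2⟩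

end Pool.Agent.R419.CF
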