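import Mathlib

/-!
# Project CF: products over the subtype of the good primes
-/

set_option autoImplicit false

namespace Pool.Agent.R419.CF

theorem prod_sub {P : ℕ → Prop} [DecidablePred P] {g : ℕ → ℂ} {a : ℂ}
    (h : HasProd (fun p : ℕ => if P p then g p else 1) a) :
    HasProd (fun p : {p : ℕ // P p} => g p) a := by
  have h1 : (fun p : ℕ => if P p then g p else 1) = Set.mulIndicator {p | P p} g := by
    funext p
    by_cases hp : P p
    · rw [if_pos hp, Set.mulIndicator_of_mem (show p ∈ {p | P p} from hp)]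
    · rw [if_neg hp, Set.mulIndicator_of_notMem (show p ∉ {p | P p} from hp)]
  rw [h1] at h
  exact hasProd_subtype_iff_mulIndicator.2 h

theorem euler_sub {a b : ℤ} {s z : ℂ}
    (h : HasProd (fun p : ℕ => open Classical in
      if p.Prime ∧ ¬ ((p : ℤ) ∣ 2 * (-4 * a ^ 3 - 27 * b ^ 2)) then
        (1 - ((p : ℂ) - (Nat.card {q : ZMod p × ZMod p //
            q.2 ^ 2 = q.1 ^ 3 + (a : ZMod p) * q.1 + (b : ZMod p)} : ℂ))
            * (p : ℂ) ^ (-s) + (p : ℂ) ^ (1 - 2 * s))⁻¹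
      else 1) z) :
    HasProd
        (fun p : {p : ℕ // p.Prime ∧ ¬ ((p : ℤ) ∣ 2 * (4 * a ^ 3 + 27 * b ^ 2))} =>
          ((1 : ℂ)
            - ((((p.1 : ℤ) - (Nat.card {q : ZMod p.1 × ZMod p.1 //
                  q.2 ^ 2 = q.1 ^ 3 + (a : ZMod p.1) * q.1 + (b : ZMod p.1)} : ℤ)) : ℤ) : ℂ)
                * ((p.1 : ℂ) ^ (-s))
            + (p.1 : ℂ) ^ (1 - 2 * s))⁻¹) z := by
  classical
  have e : ∀ p : ℕ, ((p : ℤ) ∣ 2 * (-4 * a ^ 3 - 27 * b ^ 2)) ↔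
      ((p : ℤ) ∣ 2 * (4 * a ^ 3 + 27 * b ^ 2)) := by
    intro p
    rw [← dvd_neg]
    have : -(2 * (-4 * a ^ 3 - 27 * b ^ 2)) = 2 * (4 * a ^ 3 + 27 * b ^ 2) := by ring
    rw [this]
  have h' : HasProd (fun p : ℕ =>
      if p.Prime ∧ ¬ ((p : ℤ) ∣ 2 * (4 * a ^ 3 + 27 * b ^ 2)) then
        ((1 : ℂ)
            - ((((p : ℤ) - (Nat.card {q : ZMod p × ZMod p //
                  q.2 ^ 2 = q.1 ^ 3 + (a : ZMod p) * q.1 + (b : ZMod p)} : ℤ)) : ℤ) : ℂ)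
                * ((p : ℂ) ^ (-s))
            + (p : ℂ) ^ (1 - 2 * s))⁻¹
      else 1) z := by
    convert h using 2 with p
    by_cases hp : p.Prime ∧ ¬ ((p : ℤ) ∣ 2 * (4 * a ^ 3 + 27 * b ^ 2))
    · rw [if_pos hp, if_pos ⟨hp.1, fun h => hp.2 ((e p).1 h)⟩]
      push_cast
      rfl
    · rw [if_neg hp, if_neg fun h => hp ⟨h.1, fun k => h.2 ((e p).2 k)⟩]
  exact prod_sub h'

end Pool.Agent.R419.CF
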