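import Pool.Agent.R419.CF.Sub
import Pool.Agent.Y703.CX.Rank

/-!
# Project CF: the weak form for `y² = x³ - 432 D²` (the cubic `x³ + y³ = D`)
-/

set_option autoImplicit false

namespace Pool.Agent.R419.CF

open Pool.Agent.Y703.CT (Cls NoSplit)

theorem weak {D : ℕ} (hC : Cls D) (hN : NoSplit D) :
    (∃ F : ℂ → ℂ, Differentiable ℂ F ∧
      (∀ s : ℂ, (3 : ℝ) / 2 < s.re → HasProd
        (fun p : {p : ℕ // p.Prime ∧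
            ¬ ((p : ℤ) ∣ 2 * (4 * 0 ^ 3 + 27 * (-432 * (D : ℤ) ^ 2) ^ 2))} =>
          ((1 : ℂ)
            - ((((p.1 : ℤ) - (Nat.card {q : ZMod p.1 × ZMod p.1 //
                  q.2 ^ 2 = q.1 ^ 3 + ((0 : ℤ) : ZMod p.1) * q.1 +
                    ((-432 * (D : ℤ) ^ 2 : ℤ) : ZMod p.1)} : ℤ)) : ℤ) : ℂ)
                * ((p.1 : ℂ) ^ (-s))
            + (p.1 : ℂ) ^ (1 - 2 * s))⁻¹) (F s)) ∧ F 1 ≠ 0) ∧
    {q : ℚ × ℚ | q.2 ^ 2 = q.1 ^ 3 + ((0 : ℤ) : ℚ) * q.1 +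
      ((-432 * (D : ℤ) ^ 2 : ℤ) : ℚ)}.Finite := by
  obtain ⟨-, f, hf, -, u, -, -, h2⟩ := Pool.Agent.Y703.CT.fin_all hC
  have hT := h2.2 hN
  have hD0 : (D : ℤ) ≠ 0 := by exact_mod_cast hC.1.1
  obtain ⟨F, h1, h3, h4, -⟩ := Pool.Agent.Y703.CX.rank_form hC hN
  refine ⟨⟨F, h1, fun s hs => euler_sub (h3 s hs), ?_⟩, Pool.Agent.Y703.CX.fin_pts hD0 hT.1⟩
  exact (h1.analyticAt 1).analyticOrderAt_eq_zero.1 h4

end Pool.Agent.R419.CF
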